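import Pool.Agent.Helper381.QC.Step

set_option autoImplicit false

/-! The two Stepanov bounds. -/

open Polynomial

namespace Pool.Agent.Helper381.QC

variable (p : ℕ) [hp : Fact p.Prime]

theorem stepanov' (g : (ZMod p)[X]) (hg : IsCoprime g (del p g)) (D : ℕ)
    (hD : D ≤ p) (s : Finset (ℕ × ℕ)) (f : ℕ × ℕ → (ZMod p)[X])
    (hf : ∀ lam : ℕ × ℕ → ZMod p, ∑ i ∈ s, C (lam i) * f i = 0 → ∀ i ∈ s, lam i = 0) (E : ℕ)
    (hE : ∀ i ∈ s, (f i).natDegree ≤ E) (T : Finset ((ZMod p)[X] ⧸ Ideal.span {g}))
    (hT : T.card * D < s.card)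
    (h : ∀ i ∈ s, ∀ j < D, Ideal.Quotient.mkₐ (ZMod p) (Ideal.span {g}) ((del p ^ j) (f i)) ∈
      Submodule.span (ZMod p) (T : Set ((ZMod p)[X] ⧸ Ideal.span {g}))) :
    D * g.natDegree ≤ E := by
  have h1 : LinearIndepOn (ZMod p) f (s : Set (ℕ × ℕ)) := by
    rw [linearIndepOn_finset_iff]
    intro c hc i hi
    refine hf c ?_ i hi
    simpa [smul_eq_C_mul] using hc
  exact stepanov p (ι := s) g hg D hD (fun i => f i) h1 E (fun i => hE i i.2) T
    (by simpa using hT) (fun i => h i i.2)

theorem del_pow_mem (G : ℕ → Set (ZMod p)[X])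
    (hG : ∀ j, ∀ f ∈ G j, del p f ∈ Submodule.span (ZMod p) (G (j + 1)))
    (f0 : (ZMod p)[X]) (hf0 : f0 ∈ G 0) (j : ℕ) :
    (del p ^ j) f0 ∈ Submodule.span (ZMod p) (G j) := by
  induction j with
  | zero => simpa using Submodule.subset_span hf0
  | succ j ih =>
    rw [pow_succ', Module.End.mul_apply]
    have h1 : Submodule.span (ZMod p) (G j) ≤
        (Submodule.span (ZMod p) (G (j + 1))).comap (del p) := by
      rw [Submodule.span_le]
      intro f hf
      exact hG j f hf
    exact h1 ih

/-- the exponents `s + M b`. -/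
def Lam (M : ℕ) (S : Finset ℕ) (B : ℕ) : Finset ℕ :=
  (S ×ˢ Finset.range B).image (fun x => x.1 + M * x.2)

theorem card_Lam (M : ℕ) (S : Finset ℕ) (B : ℕ) (hS : ∀ s ∈ S, s < M) :
    (Lam M S B).card = S.card * B := by
  unfold Lam
  rw [Finset.card_image_of_injOn, Finset.card_product, Finset.card_range]
  intro x hx y hy hxy
  simp only [Finset.coe_product, Set.mem_prod, Finset.mem_coe, Finset.mem_range] at hx hy
  have h1 := hS _ hx.1
  have h2 := hS _ hy.1
  have hM : 0 < M := by omega
  simp only at hxy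
  have h3 := congrArg (· % M) hxy
  have h4 := congrArg (· / M) hxy
  simp only [Nat.add_mul_mod_self_left, Nat.mod_eq_of_lt h1, Nat.mod_eq_of_lt h2] at h3
  simp only [Nat.add_mul_div_left _ _ hM, Nat.div_eq_of_lt h1, Nat.div_eq_of_lt h2, zero_add] at h4
  exact Prod.ext h3 h4

theorem mem_Lam {M : ℕ} {S : Finset ℕ} {B n : ℕ} :
    n ∈ Lam M S B ↔ ∃ s ∈ S, ∃ b < B, s + M * b = n := by
  unfold Lam
  simp only [Finset.mem_image, Finset.mem_product, Finset.mem_range, Prod.exists]
  constructor
  · rintro ⟨a, b, ⟨h1, h2⟩, h3⟩; exact ⟨a, h1, b, h2, h3⟩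
  · rintro ⟨a, h1, b, h2, h3⟩; exact ⟨a, b, ⟨h1, h2⟩, h3⟩

theorem coprime_del (M : ℕ) (hM : ¬ p ∣ M) (g : (ZMod p)[X]) (hg1 : g ∣ X ^ M - 1)
    (hg2 : g ∣ (X + 1) ^ M - 1) : IsCoprime g (del p g) := by
  have hM0 : M ≠ 0 := by rintro rfl; exact hM (dvd_zero _)
  have h1 : IsCoprime g X := by
    refine IsCoprime.of_isCoprime_of_dvd_left ?_ hg1
    refine ⟨-1, X ^ (M - 1), ?_⟩
    rw [← pow_succ, Nat.sub_add_cancel (Nat.one_le_iff_ne_zero.mpr hM0)]
    ring
  have h2 : IsCoprime g (X + 1) := by
    refine IsCoprime.of_isCoprime_of_dvd_left ?_ hg2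
    refine ⟨-1, (X + 1) ^ (M - 1), ?_⟩
    rw [← pow_succ, Nat.sub_add_cancel (Nat.one_le_iff_ne_zero.mpr hM0)]
    ring
  have h3 : g.Separable := by
    refine Separable.of_dvd ?_ hg1
    rw [X_pow_sub_one_separable_iff]
    intro h
    rw [ZMod.natCast_eq_zero_iff] at h
    exact hM h
  rw [del_apply]
  exact (h1.mul_right h2).mul_right h3

theorem mk_pow_mod {R : Type*} [CommRing R] (x : R) (M : ℕ) (hx : x ^ M = 1) (k : ℕ) :
    x ^ k = x ^ (k % M) := by
  conv_lhs => rw [← Nat.mod_add_div k M, pow_add, pow_mul, hx, one_pow, mul_one]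

theorem mk_pow_add_mul {R : Type*} [CommRing R] (x : R) (M : ℕ) (hx : x ^ M = 1) (k b : ℕ) :
    x ^ (k + M * b) = x ^ k := by
  rw [pow_add, pow_mul, hx, one_pow, mul_one]

/-- First bound. -/
theorem S1 (M b : ℕ) (hb : 1 ≤ b) (hM : 4 * b ^ 3 ≤ M) (hpM : 2 * b * M ≤ p) (g : (ZMod p)[X])
    (hg1 : g ∣ X ^ M - 1) (hg2 : g ∣ (X + 1) ^ M - 1) : b * g.natDegree ≤ 4 * M := by
  classical
  have hb2 : 1 ≤ b ^ 2 := Nat.one_le_pow _ _ hb
  have hb3 : b ^ 2 ≤ b ^ 3 := Nat.pow_le_pow_right hb (by norm_num)
  have hM0 : 0 < M := by omega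
  have hMp : M < p := by nlinarith
  have hndvd : ¬ p ∣ M := fun h => absurd (Nat.le_of_dvd hM0 h) (by omega)
  have hcop := coprime_del p M hndvd g hg1 hg2
  set A := 2 * b ^ 2 - 1 with hA
  set B := 2 * b with hB
  have hAM : A ≤ M := by omega
  set x : (ZMod p)[X] ⧸ Ideal.span {g} := Ideal.Quotient.mk (Ideal.span {g}) X with hx
  have hxM : x ^ M = 1 := by
    rw [hx, ← map_pow, ← sub_eq_zero, ← map_one (Ideal.Quotient.mk (Ideal.span {g})), ← map_sub,
      Ideal.Quotient.eq_zero_iff_mem, Ideal.mem_span_singleton]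
    exact hg1
  have hx1M : (x + 1) ^ M = 1 := by
    rw [hx, ← map_one (Ideal.Quotient.mk (Ideal.span {g})), ← map_add, ← map_pow, ← sub_eq_zero,
      ← map_sub, Ideal.Quotient.eq_zero_iff_mem, Ideal.mem_span_singleton]
    exact hg2
  set Λ := Lam M (Finset.range A) B with hΛ
  have hΛcard : Λ.card = A * B := by
    rw [hΛ, card_Lam M _ B (fun s hs => lt_of_lt_of_le (Finset.mem_range.mp hs) hAM),
      Finset.card_range]
  have hΛlt : ∀ n ∈ Λ, n < M * B := by
    intro n hn
    obtain ⟨s, hs, b', hb', rfl⟩ := mem_Lam.mp hn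
    have h1 := Finset.mem_range.mp hs
    have : M * (b' + 1) ≤ M * B := Nat.mul_le_mul_left _ hb'
    have h3 : M * (b' + 1) = M * b' + M := by ring
    omega
  have hMB : M * B ≤ p := by rw [mul_comm]; exact hpM
  have hABM : A * B ≤ M := by
    have : A * B ≤ 2 * b ^ 2 * (2 * b) := Nat.mul_le_mul (by omega) le_rfl
    have h2 : 2 * b ^ 2 * (2 * b) = 4 * b ^ 3 := by ring
    omega
  have hDp : A ≤ p := by omega
  have hmain := stepanov' p g hcop A hDp (Λ ×ˢ Finset.range B)
    (fun i => X ^ i.1 * ((X + 1) ^ M) ^ i.2) ?_ (M * B + M * B) ?_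
    ((Finset.range (2 * A)).image (fun i => x ^ i)) ?_ ?_
  · -- conclusion
    have h1 : b ^ 2 ≤ A := by omega
    have h2 : b ^ 2 * g.natDegree ≤ 4 * b * M := by
      calc b ^ 2 * g.natDegree ≤ A * g.natDegree := Nat.mul_le_mul_right _ h1
        _ ≤ M * B + M * B := hmain
        _ = 4 * b * M := by rw [hB]; ring
    have h3 : b * (b * g.natDegree) ≤ b * (4 * M) := by
      calc b * (b * g.natDegree) = b ^ 2 * g.natDegree := by ring
        _ ≤ 4 * b * M := h2
        _ = b * (4 * M) := by ring
    exact Nat.le_of_mul_le_mul_left h3 (by omega)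
  · -- nonvanishing
    intro lam hlam
    have hsum : ∑ c ∈ Finset.range B, (∑ n ∈ Λ, C (lam (n, c)) * X ^ n) * ((X + 1) ^ M) ^ c = 0 := by
      rw [← hlam, Finset.sum_product_right]
      apply Finset.sum_congr rfl
      intro c _
      rw [Finset.sum_mul]
      apply Finset.sum_congr rfl
      intro n _
      ring
    have hpeel := peel ((X + 1 : (ZMod p)[X]) ^ M) (pow_ne_zero _ (X_add_one_ne p))
      {f | ∃ c : ℕ → ZMod p, f = ∑ n ∈ Λ, C (c n) * X ^ n}
      (by
        intro f hf hdvd
        obtain ⟨c, hfc⟩ := hf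
        have h1 := sparse_one p Λ (fun r hr => lt_of_lt_of_le (hΛlt r hr) hMB) M
          (by rw [hΛcard]; exact hABM) c (by rw [← hfc]; exact hdvd)
        rw [hfc]
        apply Finset.sum_eq_zero
        intro n hn
        rw [h1 n hn, C_0, zero_mul])
      B (fun c => ∑ n ∈ Λ, C (lam (n, c)) * X ^ n) (fun c _ => ⟨fun n => lam (n, c), rfl⟩) hsum
    rintro ⟨n, c⟩ hi
    obtain ⟨hn, hc⟩ := Finset.mem_product.mp hi
    have h2 := hpeel c (Finset.mem_range.mp hc)
    have h3 := sparse_one p Λ (fun r hr => lt_of_lt_of_le (hΛlt r hr) hMB) M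
          (by rw [hΛcard]; exact hABM) (fun n => lam (n, c)) (by
            have h4 : ∑ r ∈ Λ, C (lam (r, c)) * X ^ r = 0 := h2
            rw [h4]; exact dvd_zero _)
    exact h3 n hn
  · -- degrees
    rintro ⟨n, c⟩ hi
    obtain ⟨hn, hc⟩ := Finset.mem_product.mp hi
    have hc' := Finset.mem_range.mp hc
    have hX1 : (X + 1 : (ZMod p)[X]).natDegree = 1 := by
      have := natDegree_X_add_C (1 : ZMod p)
      simpa using this
    refine natDegree_mul_le.trans (Nat.add_le_add ?_ ?_)
    · rw [natDegree_X_pow]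
      exact (hΛlt n hn).le
    · rw [← pow_mul]
      refine natDegree_pow_le.trans ?_
      rw [hX1, mul_one]
      exact Nat.mul_le_mul_left _ hc'.le
  · -- count
    rw [Finset.card_product, hΛcard, Finset.card_range]
    have h1 : ((Finset.range (2 * A)).image (fun i => x ^ i)).card ≤ 2 * A := by
      simpa using Finset.card_image_le (s := Finset.range (2 * A)) (f := fun i => x ^ i)
    have hA1 : 1 ≤ A := by omega
    calc _ ≤ 2 * A * A := Nat.mul_le_mul_right _ h1
      _ = A * (2 * A) := by ring
      _ < A * (B * B) := by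
        apply Nat.mul_lt_mul_of_pos_left _ (by omega)
        rw [hB]
        have h5 : 2 * b * (2 * b) = 4 * b ^ 2 := by ring
        omega
      _ = _ := by ring
  · -- membership
    rintro ⟨n, c⟩ hi j hj
    obtain ⟨hn, hc⟩ := Finset.mem_product.mp hi
    obtain ⟨s, hs, b', hb', hnn⟩ := mem_Lam.mp hn
    have h1 := del_pow_mem p (fun j => {f | ∃ i ≤ j, f = X ^ (n + i) * ((X + 1) ^ M) ^ c})
      (by
        rintro j f ⟨i, hi, rfl⟩
        have h2 : del p (X ^ (n + i) * ((X + 1) ^ M) ^ c) =
            ((n + i + M * c : ℕ) : ZMod p) • (X ^ (n + (i + 1)) * ((X + 1) ^ M) ^ c) +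
            ((n + i : ℕ) : ZMod p) • (X ^ (n + i) * ((X + 1) ^ M) ^ c) := by
          rw [← pow_mul]
          have hd : ∀ k : ℕ, X * derivative (X ^ k : (ZMod p)[X]) = C (k : ZMod p) * X ^ k := by
            intro k
            rcases k with _ | k
            · simp
            · rw [derivative_X_pow]
              simp
              ring
          have hd1 : ∀ k : ℕ, (X + 1) * derivative ((X + 1) ^ k : (ZMod p)[X]) =
              C (k : ZMod p) * (X + 1) ^ k := by
            intro k
            rcases k with _ | k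
            · simp
            · rw [derivative_pow_succ]
              simp
              ring
          rw [del_apply, derivative_mul]
          calc X * (X + 1) * (derivative (X ^ (n + i)) * (X + 1) ^ (M * c) +
                X ^ (n + i) * derivative ((X + 1) ^ (M * c)))
              = (X * derivative (X ^ (n + i))) * (X + 1) * (X + 1) ^ (M * c) +
                X * X ^ (n + i) * ((X + 1) * derivative ((X + 1) ^ (M * c))) := by ring
            _ = _ := by
              rw [hd, hd1, smul_eq_C_mul, smul_eq_C_mul]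
              push_cast
              simp only [C_add, C_mul]
              ring
        rw [h2]
        refine Submodule.add_mem _ (Submodule.smul_mem _ _ (Submodule.subset_span ?_))
          (Submodule.smul_mem _ _ (Submodule.subset_span ?_))
        · exact ⟨i + 1, by omega, rfl⟩
        · exact ⟨i, by omega, rfl⟩)
      (X ^ n * ((X + 1) ^ M) ^ c) ⟨0, le_rfl, by simp⟩ j
    have h3 : Submodule.span (ZMod p) {f : (ZMod p)[X] | ∃ i ≤ j, f = X ^ (n + i) *
        ((X + 1) ^ M) ^ c} ≤ (Submodule.span (ZMod p)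
        (((Finset.range (2 * A)).image (fun i => x ^ i) : Finset ((ZMod p)[X] ⧸ Ideal.span {g})) :
          Set ((ZMod p)[X] ⧸ Ideal.span {g}))).comap
          (Ideal.Quotient.mkₐ (ZMod p) (Ideal.span {g})).toLinearMap := by
      rw [Submodule.span_le]
      rintro f ⟨i, hi, rfl⟩
      apply Submodule.subset_span
      rw [Finset.mem_coe, Finset.mem_image]
      refine ⟨s + i, ?_, ?_⟩
      · rw [Finset.mem_range] at hs ⊢
        omega
      · rw [AlgHom.toLinearMap_apply, Ideal.Quotient.mkₐ_eq_mk, map_mul, map_pow, map_pow, map_pow,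
          map_add, map_one, ← hx, hx1M, one_pow, mul_one]
        have hnn' : s + M * b' = n := hnn
        rw [← hnn']
        have h4 : s + M * b' + i = (s + i) + M * b' := by ring
        rw [h4, mk_pow_add_mul x M hxM]
    exact h3 h1

/-- the residues of `a + p a'` modulo `M`. -/
def Res (M A A' : ℕ) : Finset ℕ :=
  (Finset.range A ×ˢ Finset.range A').image (fun x => (x.1 + p * x.2) % M)

/-- Second bound. -/
theorem S2 (M b K : ℕ) (hb : 2 ≤ b) (hMp : ¬ p ∣ M) (hpK : p ≤ K * M)
    (hpb : (b ^ 2 - 1) * (2 * b + (b ^ 2 - 1 + K * (2 * b))) * (2 * b) ≤ p) (g : (ZMod p)[X])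
    (hg1 : g ∣ X ^ M - 1) (hg2 : g ∣ (X + 1) ^ M - 1) (hg3 : g ∣ LF p) :
    (b ^ 2 - 1) * g.natDegree ≤ 2 * b * (1 + K) * M := by
  classical
  have hb2 : 4 ≤ b ^ 2 := by nlinarith
  have hM0 : 0 < M := Nat.pos_of_ne_zero (by rintro rfl; exact hMp (dvd_zero _))
  have hcop := coprime_del p M hMp g hg1 hg2
  set A := b ^ 2 - 1 with hA
  set B := 2 * b with hB
  set x : (ZMod p)[X] ⧸ Ideal.span {g} := Ideal.Quotient.mk (Ideal.span {g}) X with hx
  have hxM : x ^ M = 1 := by
    rw [hx, ← map_pow, ← sub_eq_zero, ← map_one (Ideal.Quotient.mk (Ideal.span {g})), ← map_sub,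
      Ideal.Quotient.eq_zero_iff_mem, Ideal.mem_span_singleton]
    exact hg1
  have hxL : Ideal.Quotient.mk (Ideal.span {g}) (LF p) = 0 := by
    rw [Ideal.Quotient.eq_zero_iff_mem, Ideal.mem_span_singleton]
    exact hg3
  set S := Res p M A B with hS
  have hSlt : ∀ s ∈ S, s < M := by
    intro s hs
    obtain ⟨y, _, rfl⟩ := Finset.mem_image.mp hs
    exact Nat.mod_lt _ hM0
  have hA1 : 1 ≤ A := by omega
  have hB1 : 1 ≤ B := by omega
  have hSpos : 0 < S.card := by
    apply Finset.card_pos.mpr
    refine ⟨(0 + p * 0) % M, ?_⟩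
    apply Finset.mem_image_of_mem (f := fun x : ℕ × ℕ => (x.1 + p * x.2) % M) (a := (0, 0))
    simp only [Finset.mem_product, Finset.mem_range]
    omega
  set Λ := Lam M S B with hΛ
  have hΛcard : Λ.card = S.card * B := card_Lam M S B hSlt
  have hΛlt : ∀ n ∈ Λ, n < M * B := by
    intro n hn
    obtain ⟨s, hs, b', hb', rfl⟩ := mem_Lam.mp hn
    have h1 := hSlt s hs
    have : M * (b' + 1) ≤ M * B := Nat.mul_le_mul_left _ hb'
    have h3 : M * (b' + 1) = M * b' + M := by ring
    omega
  set Q := A + K * B with hQ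
  have hprod : 1 ≤ (B + Q) * B := Nat.one_le_iff_ne_zero.mpr (by positivity)
  have hDp : A ≤ p := by
    calc A = A * 1 := (mul_one _).symm
      _ ≤ A * ((B + Q) * B) := Nat.mul_le_mul_left _ hprod
      _ = A * (B + Q) * B := by ring
      _ ≤ p := hpb
  have hres : (Λ.image (· % p)).card * B ≤ p := by
    refine le_trans (Nat.mul_le_mul_right _ ?_) hpb
    have h1 : (Λ.image (· % p)).card ≤
        ((Finset.range A ×ˢ Finset.range (B + Q)).image (fun y => (y.1 + M * y.2) % p)).card := by
      apply Finset.card_le_card_of_injOn (fun r => (r + M * Q) % p)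
      · intro r hr
        rw [Finset.mem_coe, Finset.mem_image] at hr
        obtain ⟨n, hn, rfl⟩ := hr
        obtain ⟨s, hs, b', hb', rfl⟩ := mem_Lam.mp hn
        obtain ⟨⟨a, a'⟩, haa, rfl⟩ := Finset.mem_image.mp hs
        rw [Finset.mem_product, Finset.mem_range, Finset.mem_range] at haa
        simp only at haa
        rw [Finset.mem_coe, Finset.mem_image]
        have hq : (a + p * a') / M ≤ Q := by
          apply Nat.div_le_of_le_mul
          calc a + p * a' ≤ M * A + (K * M) * B := by
                apply Nat.add_le_add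
                · calc a ≤ A := haa.1.le
                    _ = 1 * A := (one_mul _).symm
                    _ ≤ M * A := Nat.mul_le_mul_right _ hM0
                · exact Nat.mul_le_mul hpK haa.2.le
            _ = M * Q := by rw [hQ]; ring
        refine ⟨(a, b' + (Q - (a + p * a') / M)), ?_, ?_⟩
        · rw [Finset.mem_product, Finset.mem_range, Finset.mem_range]
          refine ⟨haa.1, ?_⟩
          exact Nat.add_lt_add_of_lt_of_le hb' (Nat.sub_le _ _)
        · simp only
          have h2 := Nat.mod_add_div (a + p * a') M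
          set q := (a + p * a') / M with hqq
          obtain ⟨u, hu⟩ := Nat.exists_eq_add_of_le hq
          have h3 : Q - q = u := by omega
          rw [h3]
          rw [Nat.mod_add_mod]
          have h4 : (a + p * a') % M + M * b' + M * Q = (a + M * (b' + u)) + p * a' := by
            rw [hu]
            calc (a + p * a') % M + M * b' + M * (q + u)
                = ((a + p * a') % M + M * q) + M * b' + M * u := by ring
              _ = (a + p * a') + M * b' + M * u := by rw [h2]
              _ = _ := by ring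
          rw [h4, Nat.add_mul_mod_self_left]
      · intro r hr r' hr' hrr
        rw [Finset.mem_coe, Finset.mem_image] at hr hr'
        obtain ⟨n, hn, rfl⟩ := hr
        obtain ⟨n', hn', rfl⟩ := hr'
        simp only at hrr
        have h5 : (n % p) ≡ (n' % p) [MOD p] := Nat.ModEq.add_right_cancel' (M * Q) hrr
        have h6 : n % p % p = n' % p % p := h5
        simpa using h6
    refine h1.trans (Finset.card_image_le.trans ?_)
    rw [Finset.card_product, Finset.card_range, Finset.card_range]
  have hmain := stepanov' p g hcop A hDp (Λ ×ˢ Finset.range B)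
    (fun i => X ^ i.1 * LF p ^ i.2) ?_ (M * B + p * B) ?_
    (((Finset.range 2 ×ˢ Finset.range 2) ×ˢ S).image
      (fun y => x ^ (y.1.1 * A + p * (y.1.2 * B) + y.2))) ?_ ?_
  · refine hmain.trans ?_
    calc M * B + p * B ≤ M * B + (K * M) * B := by gcongr
      _ = _ := by rw [hB]; ring
  · -- nonvanishing
    intro lam hlam
    have h1 := nonvan' p B Λ hres (fun n w => lam (n, w)) (by
      rw [← hlam, Finset.sum_product]
      apply Finset.sum_congr rfl
      intro n _
      apply Finset.sum_congr rfl
      intro w _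
      ring)
    rintro ⟨n, w⟩ hi
    obtain ⟨hn, hw⟩ := Finset.mem_product.mp hi
    exact h1 n hn w (Finset.mem_range.mp hw)
  · rintro ⟨n, w⟩ hi
    obtain ⟨hn, hw⟩ := Finset.mem_product.mp hi
    have hw' := Finset.mem_range.mp hw
    refine natDegree_mul_le.trans (Nat.add_le_add ?_ ?_)
    · rw [natDegree_X_pow]
      exact (hΛlt n hn).le
    · refine natDegree_pow_le.trans ?_
      calc w * (LF p).natDegree ≤ B * p :=
            Nat.mul_le_mul hw'.le ((natDegree_LF_le p).trans (Nat.sub_le _ _))
        _ = _ := mul_comm _ _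
  · rw [Finset.card_product, hΛcard, Finset.card_range]
    have h1 : (((Finset.range 2 ×ˢ Finset.range 2) ×ˢ S).image
      (fun y => x ^ (y.1.1 * A + p * (y.1.2 * B) + y.2))).card ≤ 4 * S.card := by
      refine Finset.card_image_le.trans ?_
      rw [Finset.card_product, Finset.card_product, Finset.card_range]
    calc _ ≤ 4 * S.card * A := Nat.mul_le_mul_right _ h1
      _ = S.card * (4 * A) := by ring
      _ < S.card * (B * B) := by
        apply Nat.mul_lt_mul_of_pos_left _ hSpos
        rw [hB]
        have h5 : 2 * b * (2 * b) = 4 * b ^ 2 := by ring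
        omega
      _ = _ := by ring
  · -- membership
    rintro ⟨n, w⟩ hi j hj
    obtain ⟨hn, hw⟩ := Finset.mem_product.mp hi
    have hw' := Finset.mem_range.mp hw
    obtain ⟨s, hs, b', hb', hnn⟩ := mem_Lam.mp hn
    obtain ⟨⟨a, a'⟩, haa, hsa⟩ := Finset.mem_image.mp hs
    rw [Finset.mem_product, Finset.mem_range, Finset.mem_range] at haa
    simp only at haa hsa hw'
    have h1 := del_pow_mem p (fun j => {f | ∃ i i' w' : ℕ, i ≤ j ∧ i' + w' ≤ w ∧
        f = X ^ (n + i + p * i') * LF p ^ w'})
      (by
        rintro j f ⟨i, i', w', hi, hiw, rfl⟩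
        have hd : ∀ k : ℕ, X * derivative (X ^ k : (ZMod p)[X]) = C (k : ZMod p) * X ^ k := by
          intro k
          rcases k with _ | k
          · simp
          · rw [derivative_X_pow]
            simp
            ring
        rcases w' with _ | w'
        · have h2 : del p (X ^ (n + i + p * i') * LF p ^ 0) =
            ((n + i + p * i' : ℕ) : ZMod p) • (X ^ (n + (i + 1) + p * i') * LF p ^ 0) +
            ((n + i + p * i' : ℕ) : ZMod p) • (X ^ (n + i + p * i') * LF p ^ 0) := by
            rw [del_apply, pow_zero, mul_one]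
            calc X * (X + 1) * derivative (X ^ (n + i + p * i'))
                = (X * derivative (X ^ (n + i + p * i'))) * (X + 1) := by ring
              _ = _ := by
                rw [hd, smul_eq_C_mul, smul_eq_C_mul]
                ring
          rw [h2]
          refine Submodule.add_mem _ (Submodule.smul_mem _ _ (Submodule.subset_span ?_))
            (Submodule.smul_mem _ _ (Submodule.subset_span ?_))
          · exact ⟨i + 1, i', 0, by omega, by omega, rfl⟩
          · exact ⟨i, i', 0, by omega, by omega, rfl⟩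
        · have h2 : del p (X ^ (n + i + p * i') * LF p ^ (w' + 1)) =
            ((n + i + p * i' : ℕ) : ZMod p) • (X ^ (n + (i + 1) + p * i') * LF p ^ (w' + 1)) +
            ((n + i + p * i' : ℕ) : ZMod p) • (X ^ (n + i + p * i') * LF p ^ (w' + 1)) +
            (((w' + 1 : ℕ) : ZMod p) • (X ^ (n + (i + 1) + p * i') * LF p ^ w') -
            ((w' + 1 : ℕ) : ZMod p) • (X ^ (n + i + p * (i' + 1)) * LF p ^ w')) := by
            rw [del_apply, derivative_mul, derivative_pow_succ]
            calc X * (X + 1) * (derivative (X ^ (n + i + p * i')) * LF p ^ (w' + 1) +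
                  X ^ (n + i + p * i') * (C (↑w' + 1) * LF p ^ w' * derivative (LF p)))
                = (X * derivative (X ^ (n + i + p * i'))) * (X + 1) * LF p ^ (w' + 1) +
                  X ^ (n + i + p * i') * C (↑w' + 1) * LF p ^ w' *
                    (X * (X + 1) * derivative (LF p)) := by ring
              _ = _ := by
                rw [hd, delta_LF, smul_eq_C_mul, smul_eq_C_mul, smul_eq_C_mul, smul_eq_C_mul]
                push_cast
                ring
          rw [h2]
          refine Submodule.add_mem _ (Submodule.add_mem _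
            (Submodule.smul_mem _ _ (Submodule.subset_span ?_))
            (Submodule.smul_mem _ _ (Submodule.subset_span ?_)))
            (Submodule.sub_mem _ (Submodule.smul_mem _ _ (Submodule.subset_span ?_))
            (Submodule.smul_mem _ _ (Submodule.subset_span ?_)))
          · exact ⟨i + 1, i', w' + 1, by omega, by omega, rfl⟩
          · exact ⟨i, i', w' + 1, by omega, by omega, rfl⟩
          · exact ⟨i + 1, i', w', by omega, by omega, rfl⟩
          · exact ⟨i, i' + 1, w', by omega, by omega, rfl⟩)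
      (X ^ n * LF p ^ w) ⟨0, 0, w, le_rfl, by omega, by simp⟩ j
    have h3 : Submodule.span (ZMod p) {f : (ZMod p)[X] | ∃ i i' w' : ℕ, i ≤ j ∧ i' + w' ≤ w ∧
        f = X ^ (n + i + p * i') * LF p ^ w'} ≤ (Submodule.span (ZMod p)
        ((((Finset.range 2 ×ˢ Finset.range 2) ×ˢ S).image
          (fun y => x ^ (y.1.1 * A + p * (y.1.2 * B) + y.2)) :
          Finset ((ZMod p)[X] ⧸ Ideal.span {g})) :
          Set ((ZMod p)[X] ⧸ Ideal.span {g}))).comap
          (Ideal.Quotient.mkₐ (ZMod p) (Ideal.span {g})).toLinearMap := by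
      rw [Submodule.span_le]
      rintro f ⟨i, i', w', hij, hiw, rfl⟩
      rw [SetLike.mem_coe, Submodule.mem_comap, AlgHom.toLinearMap_apply,
        Ideal.Quotient.mkₐ_eq_mk, map_mul, map_pow, map_pow, ← hx, hxL]
      rcases w' with _ | w'
      · rw [pow_zero, mul_one]
        apply Submodule.subset_span
        rw [Finset.mem_coe, Finset.mem_image]
        have hnn' : s + M * b' = n := hnn
        have e1 : x ^ (n + i + p * i') = x ^ ((a + i) + p * (a' + i')) := by
          rw [← hnn', ← hsa]
          have h4 : (a + p * a') % M + M * b' + i + p * i' =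
              ((a + p * a') % M + (i + p * i')) + M * b' := by ring
          rw [h4, mk_pow_add_mul x M hxM, pow_add, ← mk_pow_mod x M hxM, ← pow_add]
          congr 1
          ring
        have ha1 : (a + i) / A < 2 := by
          rw [Nat.div_lt_iff_lt_mul (by omega)]
          omega
        have ha2 : (a' + i') / B < 2 := by
          rw [Nat.div_lt_iff_lt_mul (by omega)]
          omega
        refine ⟨(((a + i) / A, (a' + i') / B), ((a + i) % A + p * ((a' + i') % B)) % M), ?_, ?_⟩
        · simp only [Finset.mem_product, Finset.mem_range]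
          refine ⟨⟨ha1, ha2⟩, ?_⟩
          apply Finset.mem_image_of_mem (f := fun x : ℕ × ℕ => (x.1 + p * x.2) % M)
            (a := ((a + i) % A, (a' + i') % B))
          simp only [Finset.mem_product, Finset.mem_range]
          exact ⟨Nat.mod_lt _ (by omega), Nat.mod_lt _ (by omega)⟩
        · simp only
          rw [e1, pow_add, ← mk_pow_mod x M hxM, ← pow_add]
          congr 1
          have h5 := Nat.mod_add_div (a + i) A
          have h6 := Nat.mod_add_div (a' + i') B
          calc (a + i) / A * A + p * ((a' + i') / B * B) + ((a + i) % A + p * ((a' + i') % B))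
              = ((a + i) % A + A * ((a + i) / A)) + p * ((a' + i') % B + B * ((a' + i') / B)) := by
                ring
            _ = _ := by rw [h5, h6]
      · rw [zero_pow (Nat.succ_ne_zero w'), mul_zero]
        exact Submodule.zero_mem _
    exact h3 h1

end Pool.Agent.Helper381.QC
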