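import Pool.Agent.Helper381.QC.Log

set_option autoImplicit false

/-! The local bound when `p ∣ M`. -/

open Polynomial UniqueFactorizationMonoid EuclideanDomain

namespace Pool.Agent.Helper381.QC

variable (p : ℕ) [hp : Fact p.Prime]

theorem squarefree_X_sub : Squarefree (X - X ^ p : (ZMod p)[X]) := by
  apply Separable.squarefree
  rw [separable_def]
  have h : derivative (X - X ^ p : (ZMod p)[X]) = 1 := by
    rw [derivative_sub, derivative_X, derivative_X_pow]
    simp
  rw [h]
  exact isCoprime_one_right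

theorem natDegree_common (m n : ℕ) (hm : ¬ p ∣ m) (h : (ZMod p)[X])
    (hu : h ∣ (X ^ m - 1) ^ p) (hv : h ∣ LF p - LF p ^ p ^ (n + 1)) : h.natDegree ≤ 2 * m := by
  classical
  have hm0 : m ≠ 0 := by rintro rfl; exact hm (dvd_zero _)
  have hune : (X ^ m - 1 : (ZMod p)[X]) ≠ 0 := by
    have := X_pow_sub_C_ne_zero (Nat.pos_of_ne_zero hm0) (1 : ZMod p)
    simpa using this
  have hne : h ≠ 0 := by
    rintro rfl
    rw [zero_dvd_iff] at hu
    exact pow_ne_zero _ hune hu
  have h1 : divRadical h ∣ X - X ^ p := by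
    obtain ⟨c, hc⟩ := hv
    have h2 := congrArg derivative hc
    have h3 : derivative (LF p ^ p ^ (n + 1)) = 0 := by
      rw [derivative_pow]
      have : ((p ^ (n + 1) : ℕ) : ZMod p) = 0 := by
        rw [ZMod.natCast_eq_zero_iff]
        exact dvd_pow_self _ (Nat.succ_ne_zero n)
      rw [this]; simp
    rw [derivative_sub, h3, sub_zero, derivative_mul] at h2
    rw [← delta_LF p, h2]
    apply Dvd.dvd.mul_left
    exact dvd_add ((divRadical_dvd_derivative h).mul_right _)
      ((divRadical_dvd_self h).mul_right _)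
  have hsq : Squarefree (divRadical h) := (squarefree_X_sub p).squarefree_of_dvd h1
  have h4 : divRadical h ∣ X ^ m - 1 :=
    (hsq.dvd_pow_iff_dvd hp.out.ne_zero).mp ((divRadical_dvd_self h).trans hu)
  have h5 : radical h ∣ X ^ m - 1 :=
    ((squarefree_radical (a := h)).dvd_pow_iff_dvd hp.out.ne_zero).mp (radical_dvd_self.trans hu)
  have h6 : h ∣ (X ^ m - 1) * (X ^ m - 1) := by
    rw [← radical_mul_divRadical (a := h)]
    exact mul_dvd_mul h5 h4
  have h7 := natDegree_le_of_dvd h6 (mul_ne_zero hune hune)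
  rw [natDegree_mul hune hune] at h7
  have h8 : (X ^ m - 1 : (ZMod p)[X]).natDegree = m := by
    have := natDegree_X_pow_sub_C (n := m) (r := (1 : ZMod p))
    simpa using this
  rw [h8] at h7
  omega

end Pool.Agent.Helper381.QC
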