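import Pool.Agent.Helper381.QC.Quot
import Pool.Agent.Helper381.QC.Bounds
import Pool.Agent.Helper381.QC.Rad

set_option autoImplicit false

/-! Bounds for the layers of the quotient ring. -/

open Polynomial

namespace Pool.Agent.Helper381.QC

variable (p : ℕ) [hp : Fact p.Prime] {A : Type} [CommRing A]

theorem aeval_LZ (x : A) : (x + 1) ^ p = x ^ p + 1 + (p : A) * aeval x (LZ p) := by
  have h := congrArg (aeval x) (LZ_spec p)
  simpa using h

theorem frob (x : A) (n : ℕ) : (p : A) ∣ (x + 1) ^ p ^ n - (x ^ p ^ n + 1) := by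
  obtain ⟨r, hr⟩ := exists_add_pow_prime_pow_eq hp.out x 1 n
  refine ⟨x * 1 * r, ?_⟩
  rw [hr, one_pow]; ring

theorem star (x : A) (n : ℕ) : (p * p : A) ∣ (x + 1) ^ p ^ (n + 1) - (x ^ p ^ n + 1) ^ p := by
  have h := dvd_sub_pow_of_dvd_sub (frob p x n) 1
  rw [pow_one, ← pow_mul, ← pow_succ] at h
  have h2 : ((p : A) ^ (1 + 1)) = (p : A) * p := by ring
  rwa [h2] at h

theorem phi_expand {J : Ideal A} {τ : A} (φ : (ZMod p)[X] →+* A ⧸ J)
    (hφ : φ X = Ideal.Quotient.mk J τ) (k : ℕ) (P : ℤ[X]) :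
    φ (expand (ZMod p) k (P.map (Int.castRingHom (ZMod p)))) =
      Ideal.Quotient.mk J (aeval (τ ^ k) P) := by
  have : (φ.comp ((expand (ZMod p) k : (ZMod p)[X] →ₐ[ZMod p] (ZMod p)[X]).toRingHom.comp
      (mapRingHom (Int.castRingHom (ZMod p))))) =
      (Ideal.Quotient.mk J).comp (aeval (τ ^ k) : ℤ[X] →ₐ[ℤ] A).toRingHom := by
    apply Polynomial.ringHom_ext'
    · exact RingHom.ext_int _ _
    · simp [hφ]
  exact congrArg (fun g => g P) this

theorem phi_map {J : Ideal A} {τ : A} (φ : (ZMod p)[X] →+* A ⧸ J)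
    (hφ : φ X = Ideal.Quotient.mk J τ) (P : ℤ[X]) :
    φ (P.map (Int.castRingHom (ZMod p))) = Ideal.Quotient.mk J (aeval τ P) := by
  have := phi_expand p φ hφ 1 P
  simpa using this

theorem phi_LF {J : Ideal A} {τ : A} (φ : (ZMod p)[X] →+* A ⧸ J)
    (hφ : φ X = Ideal.Quotient.mk J τ) : φ (LF p) = Ideal.Quotient.mk J (aeval τ (LZ p)) :=
  phi_map p φ hφ (LZ p)

section

variable (t : A) (M : ℕ) (ht : ∀ x : A, ∃ P : ℤ[X], aeval t P = x) (h1 : t ^ M = 1)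
  (h2 : (t + 1) ^ M = 1)

include ht h1

theorem lay0 (hM : M ≠ 0) : 0 < (Hn A p).index ∧ (Hn A p).index ≤ p ^ M := by
  rw [index_eq_card]
  have h3 : (X ^ M - 1 : (ZMod p)[X]).natDegree = M := by
    have := natDegree_X_pow_sub_C (n := M) (r := (1 : ZMod p))
    simpa using this
  have h4 : (X ^ M - 1 : (ZMod p)[X]) ≠ 0 := by
    have := X_pow_sub_C_ne_zero (Nat.pos_of_ne_zero hM) (1 : ZMod p)
    simpa using this
  have h := card_quot_le p t ht (Ideal.span {(p : A)}) (Ideal.mem_span_singleton_self _)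
    (X ^ M - 1) h4 (by
      intro φ hφ
      rw [map_sub, map_pow, hφ, ← map_pow, h1, map_one, map_one, sub_self])
  rwa [h3] at h

include h2

theorem lay1 (b : ℕ) (hb : 1 ≤ b) (hM : 4 * b ^ 3 ≤ M) (hpM : 2 * b * M ≤ p) :
    ∃ k, b * k ≤ 4 * M ∧ 0 < (Hn A p).index ∧ (Hn A p).index ≤ p ^ k := by
  classical
  have hb3 : 1 ≤ b ^ 3 := Nat.one_le_pow _ _ hb
  have hM0 : M ≠ 0 := by omega
  set g : (ZMod p)[X] := EuclideanDomain.gcd (X ^ M - 1) ((X + 1) ^ M - 1) with hg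
  have hg1 : g ∣ X ^ M - 1 := EuclideanDomain.gcd_dvd_left _ _
  have hg2 : g ∣ (X + 1) ^ M - 1 := EuclideanDomain.gcd_dvd_right _ _
  have hne : (X ^ M - 1 : (ZMod p)[X]) ≠ 0 := by
    have := X_pow_sub_C_ne_zero (Nat.pos_of_ne_zero hM0) (1 : ZMod p)
    simpa using this
  have hg0 : g ≠ 0 := ne_zero_of_dvd_ne_zero hne hg1
  refine ⟨g.natDegree, S1 p M b hb hM hpM g hg1 hg2, ?_⟩
  rw [index_eq_card]
  apply card_quot_le p t ht (Ideal.span {(p : A)}) (Ideal.mem_span_singleton_self _) g hg0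
  intro φ hφ
  rw [hg, EuclideanDomain.gcd_eq_gcd_ab, map_add, map_mul, map_mul]
  have e1 : φ (X ^ M - 1) = 0 := by
    rw [map_sub, map_pow, hφ, ← map_pow, h1, map_one, map_one, sub_self]
  have e2 : φ ((X + 1) ^ M - 1) = 0 := by
    rw [map_sub, map_pow, map_add, hφ, map_one, ← map_one (Ideal.Quotient.mk (Ideal.span {(p : A)})),
      ← map_add, ← map_pow, h2, map_one, sub_self]
  rw [e1, e2, zero_mul, zero_mul, add_zero]

theorem lay2 (b K : ℕ) (hb : 2 ≤ b) (hMp : ¬ p ∣ M) (hpK : p ≤ K * M)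
    (hpb : (b ^ 2 - 1) * (2 * b + (b ^ 2 - 1 + K * (2 * b))) * (2 * b) ≤ p) :
    ∃ k, (b ^ 2 - 1) * k ≤ 2 * b * (1 + K) * M ∧
      0 < (Hn A (p * p)).relIndex (Hn A p) ∧ (Hn A (p * p)).relIndex (Hn A p) ≤ p ^ k := by
  classical
  have hM0 : M ≠ 0 := by rintro rfl; exact hMp (dvd_zero _)
  set g : (ZMod p)[X] := EuclideanDomain.gcd (EuclideanDomain.gcd (X ^ M - 1) ((X + 1) ^ M - 1))
    (LF p) with hg
  have hg1 : g ∣ X ^ M - 1 :=
    (EuclideanDomain.gcd_dvd_left _ _).trans (EuclideanDomain.gcd_dvd_left _ _)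
  have hg2 : g ∣ (X + 1) ^ M - 1 :=
    (EuclideanDomain.gcd_dvd_left _ _).trans (EuclideanDomain.gcd_dvd_right _ _)
  have hg3 : g ∣ LF p := EuclideanDomain.gcd_dvd_right _ _
  have hne : (X ^ M - 1 : (ZMod p)[X]) ≠ 0 := by
    have := X_pow_sub_C_ne_zero (Nat.pos_of_ne_zero hM0) (1 : ZMod p)
    simpa using this
  have hg0 : g ≠ 0 := ne_zero_of_dvd_ne_zero hne hg1
  refine ⟨g.natDegree, S2 p M b K hb hMp hpK hpb g hg1 hg2 hg3, ?_⟩
  rw [relIndex_eq_card]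
  -- the generator `τ`
  obtain ⟨n, hn⟩ : ∃ n, M ∣ p ^ (n + 1) - 1 := by
    have hcop : Nat.Coprime p M := (Nat.Prime.coprime_iff_not_dvd hp.out).mpr hMp
    have h3 := Nat.ModEq.pow_totient hcop
    have h4 : 0 < Nat.totient M := Nat.totient_pos.mpr (Nat.pos_of_ne_zero hM0)
    refine ⟨Nat.totient M - 1, ?_⟩
    rw [Nat.sub_add_cancel h4]
    exact (Nat.modEq_iff_dvd' (Nat.one_le_pow _ _ hp.out.pos)).mp h3.symm
  have hpow : ∀ y : A, y ^ M = 1 → y ^ p ^ (n + 1) = y := by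
    intro y hy
    obtain ⟨q, hq⟩ := hn
    have h3 : p ^ (n + 1) = M * q + 1 := by
      have : 1 ≤ p ^ (n + 1) := Nat.one_le_pow _ _ hp.out.pos
      omega
    rw [h3, pow_succ, pow_mul, hy, one_pow, one_mul]
  set τ := t ^ p ^ n with hτ
  have hτp : τ ^ p = t := by
    rw [hτ, ← pow_mul, ← pow_succ]; exact hpow t h1
  have hτM : τ ^ M = 1 := by
    rw [hτ, ← pow_mul, mul_comm, pow_mul, h1, one_pow]
  have hgen : ∀ x : A, ∃ P : ℤ[X], aeval τ P = x := by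
    intro x
    obtain ⟨P, rfl⟩ := ht x
    refine ⟨expand ℤ p P, ?_⟩
    rw [expand_aeval, hτp]
  have hL : aeval τ (LZ p) ∈ Jp A p := by
    rw [mem_Jp]
    obtain ⟨y, hy⟩ := star p t n
    rw [hpow _ h2, ← hτ] at hy
    have h3 := aeval_LZ p τ
    rw [hτp] at h3
    refine ⟨-y, ?_⟩
    linear_combination -hy - h3
  apply card_quot_le p τ hgen (Jp A p) (p_mem_Jp A p) g hg0
  intro φ hφ
  have e1 : φ (X ^ M - 1) = 0 := by
    rw [map_sub, map_pow, hφ, ← map_pow, hτM, map_one, map_one, sub_self]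
  have e2 : φ ((X + 1) ^ M - 1) = 0 := by
    have h3 : Ideal.Quotient.mk (Jp A p) (τ + 1) = Ideal.Quotient.mk (Jp A p) ((t + 1) ^ p ^ n) := by
      rw [Ideal.Quotient.eq]
      obtain ⟨y, hy⟩ := frob p t n
      have : τ + 1 - (t + 1) ^ p ^ n = (p : A) * (-y) := by
        rw [mul_neg, ← hy, ← hτ]; ring
      rw [this]
      exact Ideal.mul_mem_right _ _ (p_mem_Jp A p)
    rw [map_sub, map_pow, map_add, hφ, map_one, ← map_one (Ideal.Quotient.mk (Jp A p)),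
      ← map_add, h3, ← map_pow, ← pow_mul, mul_comm, pow_mul, h2, one_pow, sub_self]
  have e3 : φ (LF p) = 0 := by
    rw [phi_LF p φ hφ, Ideal.Quotient.eq_zero_iff_mem]
    exact hL
  rw [hg, EuclideanDomain.gcd_eq_gcd_ab, EuclideanDomain.gcd_eq_gcd_ab]
  simp only [map_add, map_mul, e1, e2, e3, zero_mul, add_zero]

theorem lay3 (hM : M ≠ 0) (hpM : p ∣ M) :
    ∃ k, p * k ≤ 2 * M ∧
      0 < (Hn A (p * p)).relIndex (Hn A p) ∧ (Hn A (p * p)).relIndex (Hn A p) ≤ p ^ k := by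
  classical
  obtain ⟨e, m, hm, hMe⟩ := Nat.exists_eq_pow_mul_and_not_dvd hM p hp.out.ne_one
  obtain ⟨a, rfl⟩ : ∃ a, e = a + 1 := by
    rcases e with _ | a
    · exfalso; apply hm; rw [pow_zero, one_mul] at hMe; rwa [← hMe]
    · exact ⟨a, rfl⟩
  have hm0 : m ≠ 0 := by rintro rfl; exact hm (dvd_zero _)
  obtain ⟨n, hn⟩ : ∃ n, m ∣ p ^ (n + 1) - 1 := by
    have hcop : Nat.Coprime p m := (Nat.Prime.coprime_iff_not_dvd hp.out).mpr hm
    have h3 := Nat.ModEq.pow_totient hcop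
    have h4 : 0 < Nat.totient m := Nat.totient_pos.mpr (Nat.pos_of_ne_zero hm0)
    refine ⟨Nat.totient m - 1, ?_⟩
    rw [Nat.sub_add_cancel h4]
    exact (Nat.modEq_iff_dvd' (Nat.one_le_pow _ _ hp.out.pos)).mp h3.symm
  have hpow : ∀ y : A, y ^ m = 1 → y ^ p ^ (n + 1) = y := by
    intro y hy
    obtain ⟨q, hq⟩ := hn
    have h3 : p ^ (n + 1) = m * q + 1 := by
      have : 1 ≤ p ^ (n + 1) := Nat.one_le_pow _ _ hp.out.pos
      omega
    rw [h3, pow_succ, pow_mul, hy, one_pow, one_mul]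
  set h : (ZMod p)[X] := EuclideanDomain.gcd ((X ^ m - 1) ^ p) (LF p - LF p ^ p ^ (n + 1)) with hh
  have hdeg : h.natDegree ≤ 2 * m := natDegree_common p m n hm h
    (EuclideanDomain.gcd_dvd_left _ _) (EuclideanDomain.gcd_dvd_right _ _)
  have hne : (X ^ m - 1 : (ZMod p)[X]) ≠ 0 := by
    have := X_pow_sub_C_ne_zero (Nat.pos_of_ne_zero hm0) (1 : ZMod p)
    simpa using this
  have hh0 : h ≠ 0 :=
    ne_zero_of_dvd_ne_zero (pow_ne_zero p hne) (EuclideanDomain.gcd_dvd_left _ _)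
  refine ⟨(h ^ p ^ a).natDegree, ?_, ?_⟩
  · rw [natDegree_pow, hMe]
    calc p * (p ^ a * h.natDegree) = p ^ (a + 1) * h.natDegree := by ring
      _ ≤ p ^ (a + 1) * (2 * m) := Nat.mul_le_mul_left _ hdeg
      _ = _ := by ring
  rw [relIndex_eq_card]
  set α := t ^ p ^ a with hα
  set β := t ^ p ^ (a + n + 1) with hβ
  -- common `p`-th power
  have hs : (t ^ p ^ (a + 1)) ^ m = 1 := by rw [← pow_mul, ← hMe]; exact h1
  have hu : ((t + 1) ^ p ^ (a + 1)) ^ m = 1 := by rw [← pow_mul, ← hMe]; exact h2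
  have hαp : α ^ p = t ^ p ^ (a + 1) := by rw [hα, ← pow_mul, ← pow_succ]
  have hβp : β ^ p = t ^ p ^ (a + 1) := by
    rw [hβ, ← pow_mul, ← pow_succ]
    have h3 := hpow _ hs
    rw [← pow_mul, ← pow_add] at h3
    rw [← h3]
    congr 2
    ring
  have hup := hpow _ hu
  rw [← pow_mul, ← pow_add] at hup
  have hL : aeval α (LZ p) - aeval β (LZ p) ∈ Jp A p := by
    rw [mem_Jp]
    obtain ⟨y, hy⟩ := star p t a
    obtain ⟨z, hz⟩ := star p t (a + n + 1)
    have h3 := aeval_LZ p α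
    have h4 := aeval_LZ p β
    rw [hαp] at h3
    rw [hβp] at h4
    have h5 : a + n + 1 + 1 = a + 1 + (n + 1) := by ring
    rw [h5, hup, ← hβ] at hz
    rw [← hα] at hy
    refine ⟨z - y, ?_⟩
    linear_combination hz - hy - h3 + h4
  apply card_quot_le p t ht (Jp A p) (p_mem_Jp A p) _ (pow_ne_zero _ hh0)
  intro φ hφ
  have e1 : φ (((X ^ m - 1) ^ p) ^ p ^ a) = 0 := by
    have h3 : (((X ^ m - 1) ^ p) ^ p ^ a : (ZMod p)[X]) = X ^ M - 1 := by
      rw [← pow_mul, ← pow_succ', sub_pow_char_pow, one_pow, ← pow_mul, hMe, mul_comm m]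
    rw [h3, map_sub, map_pow, hφ, ← map_pow, h1, map_one, map_one, sub_self]
  have hexp : ∀ j : ℕ, LF p ^ p ^ j = expand (ZMod p) (p ^ j) (LF p) := by
    intro j
    induction j with
    | zero => simp
    | succ j ih =>
      rw [pow_succ, pow_mul, ih, ← ZMod.expand_card, expand_expand]
      congr 1
      ring
  have e2 : φ ((LF p - LF p ^ p ^ (n + 1)) ^ p ^ a) = 0 := by
    rw [sub_pow_char_pow, ← pow_mul, ← pow_add, hexp, hexp, map_sub]
    unfold LF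
    rw [phi_expand p φ hφ, phi_expand p φ hφ, ← map_sub, Ideal.Quotient.eq_zero_iff_mem]
    have h3 : n + 1 + a = a + n + 1 := by ring
    rw [h3]
    exact hL
  have hbez := EuclideanDomain.gcd_eq_gcd_ab ((X ^ m - 1) ^ p : (ZMod p)[X])
    (LF p - LF p ^ p ^ (n + 1))
  rw [← hh] at hbez
  rw [hbez, add_pow_char_pow, map_add, mul_pow, mul_pow, map_mul, map_mul, e1, e2, zero_mul,
    zero_mul, add_zero]

end

end Pool.Agent.Helper381.QC
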