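import Mathlib

set_option autoImplicit false

/-! A divisor bound and the valuation bound. -/

namespace Pool.Agent.Helper381.QC

theorem succ_cube_le (k : ℕ) : (k + 1) ^ 3 ≤ 8 * 2 ^ k := by
  induction k with
  | zero => norm_num
  | succ k ih =>
    rcases Nat.lt_or_ge k 3 with h | h
    · interval_cases k <;> norm_num
    · have h1 : (k + 1 + 1) ^ 3 ≤ 2 * (k + 1) ^ 3 := by
        obtain ⟨m, rfl⟩ := Nat.exists_eq_add_of_le h
        ring_nf
        nlinarith [Nat.zero_le (m ^ 3), Nat.zero_le (m ^ 2), Nat.zero_le m]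
      calc (k + 1 + 1) ^ 3 ≤ 2 * (k + 1) ^ 3 := h1
        _ ≤ 2 * (8 * 2 ^ k) := Nat.mul_le_mul_left _ ih
        _ = _ := by ring

theorem succ_cube_le' (k p : ℕ) (hp : 8 ≤ p) : (k + 1) ^ 3 ≤ p ^ k := by
  have h1 : k + 1 ≤ 2 ^ k := by
    have := Nat.lt_two_pow_self (n := k)
    omega
  calc (k + 1) ^ 3 ≤ (2 ^ k) ^ 3 := Nat.pow_le_pow_left h1 3
    _ = 8 ^ k := by rw [← pow_mul, mul_comm, pow_mul]; norm_num
    _ ≤ p ^ k := Nat.pow_le_pow_left hp k

theorem card_divisors_cube_le (n : ℕ) (hn : n ≠ 0) : n.divisors.card ^ 3 ≤ 8 ^ 8 * n := by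
  rw [Nat.card_divisors hn, ← Finset.prod_pow]
  have h1 : ∀ p ∈ n.primeFactors, (n.factorization p + 1) ^ 3 ≤
      (if p < 8 then 8 else 1) * p ^ n.factorization p := by
    intro p hp
    have hpp := Nat.prime_of_mem_primeFactors hp
    split_ifs with h
    · refine (succ_cube_le _).trans (Nat.mul_le_mul_left _ ?_)
      exact Nat.pow_le_pow_left hpp.two_le _
    · rw [one_mul]
      exact succ_cube_le' _ _ (not_lt.mp h)
  refine (Finset.prod_le_prod' h1).trans ?_
  rw [Finset.prod_mul_distrib]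
  have h2 : ∏ p ∈ n.primeFactors, p ^ n.factorization p = n :=
    Nat.prod_factorization_pow_eq_self hn
  rw [h2]
  apply Nat.mul_le_mul_right
  rw [Finset.prod_ite, Finset.prod_const_one, mul_one, Finset.prod_const]
  apply Nat.pow_le_pow_right (by norm_num)
  have h3 : (n.primeFactors.filter (fun p => p < 8)) ⊆ Finset.range 8 := by
    intro p hp
    exact Finset.mem_range.mpr (Finset.mem_filter.mp hp).2
  simpa using Finset.card_le_card h3

theorem pow_ne_one_of (a : ℤ) (_h0 : a ≠ 0) (h1 : a ≠ 1) (h2 : a ≠ -1) (k : ℕ) (hk : k ≠ 0) :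
    a ^ k ≠ 1 := by
  intro h
  have h3 : a.natAbs ^ k = 1 := by
    rw [← Int.natAbs_pow, h]; rfl
  have h4 : a.natAbs = 1 := (Nat.pow_eq_one.mp h3).resolve_right hk
  rcases Int.natAbs_eq a with h5 | h5
  · rw [h4] at h5; exact h1 h5
  · rw [h4] at h5; exact h2 h5

/-- The valuation bound. -/
theorem val_bound (a : ℤ) (h0 : a ≠ 0) (h1 : a ≠ 1) (h2 : a ≠ -1) (p : ℕ) (hp : p.Prime) :
    ∃ c : ℕ, ∀ N : ℕ, N ≠ 0 → ∀ e : ℕ, (p : ℤ) ^ e ∣ a ^ N - 1 →
      (e : ℝ) * Real.log p ≤ c * Real.log p + Real.log N := by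
  by_cases hpa : (p : ℤ) ∣ a
  · refine ⟨0, fun N hN e he => ?_⟩
    have he0 : e = 0 := by
      by_contra hne
      have h3 : (p : ℤ) ∣ a ^ N - 1 := (dvd_pow_self _ hne).trans he
      have h4 : (p : ℤ) ∣ 1 := by
        have h5 : (p : ℤ) ∣ a ^ N := dvd_pow hpa hN
        have := dvd_sub h5 h3
        simpa using this
      have h6 := Int.isUnit_iff_natAbs_eq.mp (isUnit_of_dvd_one h4)
      simp at h6
      exact hp.one_lt.ne' h6
    rw [he0]
    have : (1 : ℝ) ≤ N := by exact_mod_cast Nat.one_le_iff_ne_zero.mpr hN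
    have := Real.log_nonneg this
    simpa using this
  · -- the base `x` with good lifting
    obtain ⟨x, hx1, hxN, hlte⟩ : ∃ x : ℤ, x ≠ 1 ∧ (∀ N : ℕ, a ^ N - 1 ∣ x ^ N - 1) ∧
        ∀ N : ℕ, emultiplicity (p : ℤ) (x ^ N - 1) =
          emultiplicity (p : ℤ) (x - 1) + emultiplicity (p : ℤ) (N : ℤ) := by
      rcases hp.eq_two_or_odd' with h | h
      · subst h
        refine ⟨a ^ 2, pow_ne_one_of a h0 h1 h2 2 (by norm_num), ?_, ?_⟩
        · intro N
          have := sub_dvd_pow_sub_pow (a ^ N) 1 2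
          rw [one_pow] at this
          rwa [← pow_mul, mul_comm, pow_mul] at this
        · intro N
          have hodd : ¬ (2 : ℤ) ∣ a := by simpa using hpa
          have h4 : (4 : ℤ) ∣ a ^ 2 - 1 := by
            have h5 : Odd a := by
              rw [← Int.not_even_iff_odd, even_iff_two_dvd]; exact hodd
            obtain ⟨k, hk⟩ := h5
            rw [hk]
            exact ⟨k ^ 2 + k, by ring⟩
          have h6 : ¬ (2 : ℤ) ∣ a ^ 2 := by
            intro h7
            exact hodd (Int.prime_two.dvd_of_dvd_pow h7)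
          have := Int.two_pow_sub_pow' (x := a ^ 2) (y := 1) N (by simpa using h4) h6
          simpa using this
      · refine ⟨a ^ (p - 1), pow_ne_one_of a h0 h1 h2 (p - 1)
          (Nat.sub_ne_zero_of_lt hp.one_lt), ?_, ?_⟩
        · intro N
          have := sub_dvd_pow_sub_pow (a ^ N) 1 (p - 1)
          rw [one_pow] at this
          rwa [← pow_mul, mul_comm, pow_mul] at this
        · intro N
          have h4 : (p : ℤ) ∣ a ^ (p - 1) - 1 := by
            have hcop : IsCoprime a (p : ℤ) := by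
              rw [isCoprime_comm]
              exact (Prime.coprime_iff_not_dvd (Nat.prime_iff_prime_int.mp hp)).mpr hpa
            have := Int.ModEq.pow_card_sub_one_eq_one hp hcop
            exact (Int.modEq_iff_dvd.mp this.symm)
          have h6 : ¬ (p : ℤ) ∣ a ^ (p - 1) := by
            intro h7
            exact hpa ((Nat.prime_iff_prime_int.mp hp).dvd_of_dvd_pow h7)
          have := Int.emultiplicity_pow_sub_pow hp h (x := a ^ (p - 1)) (y := 1) h4 h6 N
          rw [one_pow] at this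
          rw [this, Int.natCast_emultiplicity]
    have hfin : FiniteMultiplicity (p : ℤ) (x - 1) := by
      rw [Int.finiteMultiplicity_iff]
      refine ⟨?_, sub_ne_zero.mpr hx1⟩
      simpa using hp.one_lt.ne'
    refine ⟨multiplicity (p : ℤ) (x - 1), fun N hN e he => ?_⟩
    have hfinN : FiniteMultiplicity (p : ℤ) (N : ℤ) := by
      rw [Int.finiteMultiplicity_iff]
      refine ⟨?_, by exact_mod_cast hN⟩
      simpa using hp.one_lt.ne'
    have h3 : (p : ℤ) ^ e ∣ x ^ N - 1 := he.trans (hxN N)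
    have h4 : (e : ℕ∞) ≤ emultiplicity (p : ℤ) (x ^ N - 1) := le_emultiplicity_of_pow_dvd h3
    rw [hlte, hfin.emultiplicity_eq_multiplicity, hfinN.emultiplicity_eq_multiplicity] at h4
    have h5 : e ≤ multiplicity (p : ℤ) (x - 1) + multiplicity (p : ℤ) (N : ℤ) := by
      exact_mod_cast h4
    have h6 : (p : ℤ) ^ multiplicity (p : ℤ) (N : ℤ) ∣ (N : ℤ) := pow_multiplicity_dvd _ _
    have h7 : p ^ multiplicity (p : ℤ) (N : ℤ) ∣ N := by exact_mod_cast h6
    have h8 : p ^ multiplicity (p : ℤ) (N : ℤ) ≤ N := Nat.le_of_dvd (Nat.pos_of_ne_zero hN) h7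
    have h9 : (multiplicity (p : ℤ) (N : ℤ) : ℝ) * Real.log p ≤ Real.log N := by
      rw [← Real.log_pow]
      apply Real.log_le_log
      · have := hp.pos
        positivity
      · exact_mod_cast h8
    have h10 : (0 : ℝ) ≤ Real.log p := Real.log_nonneg (by exact_mod_cast hp.one_lt.le)
    calc (e : ℝ) * Real.log p
        ≤ ((multiplicity (p : ℤ) (x - 1) + multiplicity (p : ℤ) (N : ℤ) : ℕ) : ℝ) *
          Real.log p := by
          apply mul_le_mul_of_nonneg_right _ h10
          exact_mod_cast h5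
      _ ≤ _ := by push_cast; nlinarith [h9]

end Pool.Agent.Helper381.QC
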