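import Pool.Agent.Helper381.QC.Div

set_option autoImplicit false

/-! Sums over the primes dividing `a^N - 1`. -/

open Filter Asymptotics

namespace Pool.Agent.Helper381.QC

theorem natAbs_le (a : ℤ) (d : ℕ) (hd : d ≠ 0) : (a ^ d - 1).natAbs ≤ (a.natAbs + 1) ^ d := by
  have h1 : (a ^ d - 1).natAbs ≤ a.natAbs ^ d + 1 := by
    have := Int.natAbs_sub_le (a ^ d) 1
    rwa [Int.natAbs_pow] at this
  refine h1.trans ?_
  obtain ⟨k, rfl⟩ := Nat.exists_eq_succ_of_ne_zero hd
  rw [Nat.succ_eq_add_one, pow_succ, pow_succ]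
  have h2 : a.natAbs ^ k ≤ (a.natAbs + 1) ^ k := Nat.pow_le_pow_left (Nat.le_succ _) k
  have h3 : 1 ≤ (a.natAbs + 1) ^ k := Nat.one_le_pow _ _ (Nat.succ_pos _)
  calc a.natAbs ^ k * a.natAbs + 1 ≤ (a.natAbs + 1) ^ k * a.natAbs + (a.natAbs + 1) ^ k :=
        Nat.add_le_add (Nat.mul_le_mul_right _ h2) h3
    _ = _ := by ring

theorem natAbs_ne (a : ℤ) (h0 : a ≠ 0) (h1 : a ≠ 1) (h2 : a ≠ -1) (d : ℕ) (hd : d ≠ 0) :
    (a ^ d - 1).natAbs ≠ 0 := by
  rw [Int.natAbs_ne_zero]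
  exact sub_ne_zero.mpr (pow_ne_one_of a h0 h1 h2 d hd)

theorem log_natAbs_le (a : ℤ) (h0 : a ≠ 0) (h1 : a ≠ 1) (h2 : a ≠ -1) (d : ℕ) (hd : d ≠ 0) :
    Real.log ((a ^ d - 1).natAbs : ℕ) ≤ d * Real.log (a.natAbs + 1) := by
  rw [← Real.log_pow]
  apply Real.log_le_log
  · exact_mod_cast Nat.pos_of_ne_zero (natAbs_ne a h0 h1 h2 d hd)
  · exact_mod_cast natAbs_le a d hd

/-- primes dividing some `a^d - 1` with `d ≤ D`. -/
theorem sum_small_order (a : ℤ) (h0 : a ≠ 0) (h1 : a ≠ 1) (h2 : a ≠ -1) (D : ℕ) (s : Finset ℕ)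
    (hs : ∀ p ∈ s, p.Prime) (hd : ∀ p ∈ s, ∃ d, d ≠ 0 ∧ d ≤ D ∧ p ∣ (a ^ d - 1).natAbs) :
    ∑ p ∈ s, Real.log p ≤ (D : ℝ) ^ 2 * Real.log (a.natAbs + 1) := by
  have hlog : ∑ p ∈ s, Real.log p = Real.log ((∏ p ∈ s, p : ℕ) : ℝ) := by
    rw [Nat.cast_prod, Real.log_prod]
    intro p hp
    exact_mod_cast (hs p hp).ne_zero
  set T : ℕ := ∏ d ∈ Finset.Icc 1 D, (a ^ d - 1).natAbs with hT
  have hT0 : T ≠ 0 := by
    rw [hT, Finset.prod_ne_zero_iff]
    intro d hd
    exact natAbs_ne a h0 h1 h2 d (by have := (Finset.mem_Icc.mp hd).1; omega)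
  have hdvd : ∏ p ∈ s, p ∣ T := by
    apply Finset.prod_primes_dvd
    · intro p hp; exact (hs p hp).prime
    · intro p hp
      obtain ⟨d, hd0, hdD, hpd⟩ := hd p hp
      exact hpd.trans (Finset.dvd_prod_of_mem _ (Finset.mem_Icc.mpr ⟨by omega, hdD⟩))
  have hle : (∏ p ∈ s, p : ℕ) ≤ T := Nat.le_of_dvd (Nat.pos_of_ne_zero hT0) hdvd
  have hpos : 0 < (∏ p ∈ s, p : ℕ) := Finset.prod_pos fun p hp => (hs p hp).pos
  have hca : 0 ≤ Real.log (a.natAbs + 1) := Real.log_nonneg (by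
    have : (0 : ℝ) ≤ a.natAbs := Nat.cast_nonneg _
    linarith)
  calc ∑ p ∈ s, Real.log p = Real.log ((∏ p ∈ s, p : ℕ) : ℝ) := hlog
    _ ≤ Real.log (T : ℝ) := Real.log_le_log (by exact_mod_cast hpos) (by exact_mod_cast hle)
    _ = ∑ d ∈ Finset.Icc 1 D, Real.log ((a ^ d - 1).natAbs : ℕ) := by
        rw [hT, Nat.cast_prod, Real.log_prod]
        intro d hd
        have := natAbs_ne a h0 h1 h2 d (by have := (Finset.mem_Icc.mp hd).1; omega)
        exact_mod_cast this
    _ ≤ ∑ d ∈ Finset.Icc 1 D, (D : ℝ) * Real.log (a.natAbs + 1) := by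
        apply Finset.sum_le_sum
        intro d hd
        obtain ⟨hd1, hd2⟩ := Finset.mem_Icc.mp hd
        refine (log_natAbs_le a h0 h1 h2 d (by omega)).trans ?_
        apply mul_le_mul_of_nonneg_right _ hca
        exact_mod_cast hd2
    _ = _ := by
        rw [Finset.sum_const, Nat.card_Icc, Nat.add_sub_cancel, nsmul_eq_mul]
        ring

/-- primes of large order. -/
theorem card_large_order (a : ℤ) (N : ℕ) (hN : N ≠ 0) (D Y : ℕ) (hD : 0 < D) (s : Finset ℕ)
    (hs : ∀ p ∈ s, p.Prime) (hdvd : ∀ p ∈ s, p ∣ (a ^ N - 1).natAbs) (hY : ∀ p ∈ s, p ≤ Y)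
    (hd : ∀ p ∈ s, ∀ d, d ≠ 0 → d ≤ D → ¬ p ∣ (a ^ d - 1).natAbs) :
    s.card ≤ N.divisors.card * (Y / D) := by
  classical
  · have hsub : s ⊆ (N.divisors.filter (fun d => D < d)).biUnion
        (fun d => (Finset.Icc 1 (Y / d)).image (fun i => d * i + 1)) := by
      intro p hp
      have hpp := hs p hp
      have : Fact p.Prime := ⟨hpp⟩
      have hdvdZ : ∀ d : ℕ, (p ∣ (a ^ d - 1).natAbs ↔ (a : ZMod p) ^ d = 1) := by
        intro d
        rw [← Int.natCast_dvd, ← ZMod.intCast_zmod_eq_zero_iff_dvd]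
        push_cast
        rw [sub_eq_zero]
      have h1 : (a : ZMod p) ^ N = 1 := (hdvdZ N).mp (hdvd p hp)
      set d := orderOf (a : ZMod p) with hdd
      have hdN : d ∣ N := orderOf_dvd_of_pow_eq_one h1
      have hd0 : d ≠ 0 := by
        intro h; rw [h, zero_dvd_iff] at hdN; exact hN hdN
      have hdD : D < d := by
        by_contra hle
        exact hd p hp d hd0 (not_lt.mp hle) ((hdvdZ d).mpr (pow_orderOf_eq_one _))
      have ha0 : (a : ZMod p) ≠ 0 := by
        intro h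
        rw [h, zero_pow hN] at h1
        exact zero_ne_one h1
      have hdp : d ∣ p - 1 := orderOf_dvd_of_pow_eq_one (ZMod.pow_card_sub_one_eq_one ha0)
      obtain ⟨i, hi⟩ := hdp
      have hp1 := hpp.two_le
      rw [Finset.mem_biUnion]
      refine ⟨d, Finset.mem_filter.mpr ⟨Nat.mem_divisors.mpr ⟨hdN, hN⟩, hdD⟩, ?_⟩
      rw [Finset.mem_image]
      refine ⟨i, Finset.mem_Icc.mpr ⟨?_, ?_⟩, by omega⟩
      · by_contra h
        have : i = 0 := by omega
        rw [this, mul_zero] at hi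
        omega
      · rw [Nat.le_div_iff_mul_le (Nat.pos_of_ne_zero hd0), mul_comm]
        have := hY p hp
        omega
    refine (Finset.card_le_card hsub).trans (Finset.card_biUnion_le.trans ?_)
    calc ∑ d ∈ N.divisors.filter (fun d => D < d),
          ((Finset.Icc 1 (Y / d)).image (fun i => d * i + 1)).card
        ≤ ∑ d ∈ N.divisors.filter (fun d => D < d), (Y / D) := by
          apply Finset.sum_le_sum
          intro d hd
          refine Finset.card_image_le.trans ?_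
          rw [Nat.card_Icc, Nat.add_sub_cancel]
          exact Nat.div_le_div_left (Finset.mem_filter.mp hd).2.le hD
      _ = (N.divisors.filter (fun d => D < d)).card * (Y / D) := by
          rw [Finset.sum_const, smul_eq_mul]
      _ ≤ _ := Nat.mul_le_mul_right _ (Finset.card_filter_le _ _)

/-- the sum over the small primes is `o(K)`. -/
theorem small_primes (a : ℤ) (h0 : a ≠ 0) (h1 : a ≠ 1) (h2 : a ≠ -1) (C : ℕ) (δ : ℝ)
    (hδ : 0 < δ) : ∃ K0 : ℕ, ∀ K : ℕ, K0 ≤ K → ∀ N : ℕ, N ≠ 0 → N ≤ K →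
      ∑ p ∈ (a ^ N - 1).natAbs.primeFactors with p ≤ C * K, Real.log p ≤ δ * K := by
  classical
  set ca : ℝ := Real.log (a.natAbs + 1) with hca
  have hca0 : 0 ≤ ca := Real.log_nonneg (by
    have : (0 : ℝ) ≤ a.natAbs := Nat.cast_nonneg _
    linarith)
  set θ : ℝ := δ / (2 * (ca + 1)) with hθ
  have hθ0 : 0 < θ := by positivity
  have hθca : θ * ca ≤ δ / 2 := by
    rw [hθ, div_mul_eq_mul_div, div_le_div_iff₀ (by positivity) (by norm_num)]
    nlinarith
  set c2 : ℝ := C * ((8 : ℝ) ^ 8) ^ (1 / 3 : ℝ) with hc2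
  have hc20 : 0 ≤ c2 := by positivity
  -- asymptotics
  have hlo : (fun x : ℝ => c2 * (x ^ (1 / 3 : ℝ) * (2 * Real.log x)) + δ / 2) =o[atTop]
      (fun x : ℝ => x ^ (1 / 2 : ℝ)) := by
    apply IsLittleO.add
    · apply IsLittleO.const_mul_left
      have e1 : (fun x : ℝ => x ^ (1 / 2 : ℝ)) =ᶠ[atTop]
          (fun x : ℝ => x ^ (1 / 3 : ℝ) * x ^ (1 / 6 : ℝ)) := by
        filter_upwards [eventually_gt_atTop 0] with x hx
        rw [← Real.rpow_add hx]; norm_num
      refine IsLittleO.trans_eventuallyEq ?_ e1.symm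
      apply IsBigO.mul_isLittleO (isBigO_refl _ _)
      exact (isLittleO_log_rpow_atTop (by norm_num)).const_mul_left 2
    · rw [isLittleO_const_left]
      right
      have := tendsto_rpow_atTop (y := (1 / 2 : ℝ)) (by norm_num)
      exact tendsto_norm_atTop_atTop.comp this
  have hκ : 0 < δ / 2 * θ ^ (1 / 2 : ℝ) := by positivity
  have hev := (hlo.def hκ).and ((eventually_ge_atTop (1 : ℝ)).and
    ((eventually_ge_atTop (C : ℝ)).and (eventually_ge_atTop (1 / θ * 4))))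
  obtain ⟨x0, hx0⟩ := eventually_atTop.mp hev
  refine ⟨Nat.ceil (max x0 1), fun K hK N hN hNK => ?_⟩
  have hKx : x0 ≤ (K : ℝ) := (le_max_left _ _).trans ((Nat.le_ceil _).trans (by exact_mod_cast hK))
  obtain ⟨hb, hK1, hKC, hKθ⟩ := hx0 K hKx
  have hKpos : (0 : ℝ) < K := by linarith
  -- the parameter `D`
  set D : ℕ := Nat.floor (Real.sqrt (θ * K)) with hD
  have hsq : 2 ≤ Real.sqrt (θ * K) := by
    apply Real.le_sqrt_of_sq_le
    have : 1 / θ * 4 ≤ K := hKθ
    rw [div_mul_eq_mul_div, div_le_iff₀ hθ0] at this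
    nlinarith
  have hD1 : 0 < D := by
    rw [hD]
    apply Nat.floor_pos.mpr
    linarith
  have hDle : (D : ℝ) ≤ Real.sqrt (θ * K) := Nat.floor_le (Real.sqrt_nonneg _)
  have hDge : Real.sqrt (θ * K) - 1 ≤ D := by
    have := Nat.lt_floor_add_one (Real.sqrt (θ * K))
    linarith
  set P := (a ^ N - 1).natAbs.primeFactors.filter (fun p => p ≤ C * K) with hP
  -- split
  set P1 := P.filter (fun p => ∃ d, d ≠ 0 ∧ d ≤ D ∧ p ∣ (a ^ d - 1).natAbs) with hP1
  set P2 := P.filter (fun p => ¬ ∃ d, d ≠ 0 ∧ d ≤ D ∧ p ∣ (a ^ d - 1).natAbs) with hP2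
  have hsplit : ∑ p ∈ P, Real.log p = ∑ p ∈ P1, Real.log p + ∑ p ∈ P2, Real.log p :=
    (Finset.sum_filter_add_sum_filter_not _ _ _).symm
  have hPprime : ∀ p ∈ P, p.Prime := fun p hp =>
    Nat.prime_of_mem_primeFactors (Finset.mem_filter.mp hp).1
  have hS1 : ∑ p ∈ P1, Real.log p ≤ (D : ℝ) ^ 2 * ca :=
    sum_small_order a h0 h1 h2 D P1 (fun p hp => hPprime p (Finset.mem_filter.mp hp).1)
      (fun p hp => (Finset.mem_filter.mp hp).2)
  have hS1' : ∑ p ∈ P1, Real.log p ≤ δ / 2 * K := by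
    refine hS1.trans ?_
    have h3 : (D : ℝ) ^ 2 ≤ θ * K := by
      calc (D : ℝ) ^ 2 ≤ (Real.sqrt (θ * K)) ^ 2 := by gcongr
        _ = θ * K := Real.sq_sqrt (by positivity)
    calc (D : ℝ) ^ 2 * ca ≤ θ * K * ca := by gcongr
      _ = θ * ca * K := by ring
      _ ≤ _ := by gcongr
  have hcard := card_large_order a N hN D (C * K) hD1 P2
    (fun p hp => hPprime p (Finset.mem_filter.mp hp).1)
    (fun p hp => Nat.dvd_of_mem_primeFactors
      (Finset.mem_filter.mp (Finset.mem_filter.mp hp).1).1)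
    (fun p hp => (Finset.mem_filter.mp (Finset.mem_filter.mp hp).1).2)
    (fun p hp d hd0 hdD hpd => (Finset.mem_filter.mp hp).2 ⟨d, hd0, hdD, hpd⟩)
  have hτ : (N.divisors.card : ℝ) ≤ ((8 : ℝ) ^ 8) ^ (1 / 3 : ℝ) * (K : ℝ) ^ (1 / 3 : ℝ) := by
    rw [← Real.mul_rpow (by positivity) (by positivity)]
    have h3 : (N.divisors.card : ℝ) ^ 3 ≤ 8 ^ 8 * (K : ℝ) := by
      have h4 : N.divisors.card ^ 3 ≤ 8 ^ 8 * K :=
        (card_divisors_cube_le N hN).trans (Nat.mul_le_mul_left _ hNK)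
      exact_mod_cast h4
    calc (N.divisors.card : ℝ) = (((N.divisors.card : ℝ)) ^ (3 : ℕ)) ^ (1 / 3 : ℝ) := by
          rw [← Real.rpow_natCast, ← Real.rpow_mul (by positivity)]
          norm_num
      _ ≤ _ := Real.rpow_le_rpow (by positivity) h3 (by norm_num)
  have hS2 : ∑ p ∈ P2, Real.log p ≤ δ / 2 * K := by
    have hlogle : ∀ p ∈ P2, Real.log p ≤ 2 * Real.log K := by
      intro p hp
      have h3 := (Finset.mem_filter.mp (Finset.mem_filter.mp hp).1).2
      have h4 : (p : ℝ) ≤ (K : ℝ) ^ 2 := by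
        calc (p : ℝ) ≤ ((C * K : ℕ) : ℝ) := by exact_mod_cast h3
          _ = C * K := by push_cast; ring
          _ ≤ K * K := by gcongr
          _ = _ := by ring
      have h5 : (0 : ℝ) < p := by
        exact_mod_cast (hPprime p (Finset.mem_filter.mp hp).1).pos
      calc Real.log p ≤ Real.log ((K : ℝ) ^ 2) := Real.log_le_log h5 h4
        _ = _ := by rw [Real.log_pow]; norm_num
    have hlogK : 0 ≤ Real.log K := Real.log_nonneg hK1
    have hDpos : (0 : ℝ) < D := by exact_mod_cast hD1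
    calc ∑ p ∈ P2, Real.log p ≤ ∑ p ∈ P2, 2 * Real.log K := Finset.sum_le_sum hlogle
      _ = P2.card * (2 * Real.log K) := by rw [Finset.sum_const, nsmul_eq_mul]
      _ ≤ (N.divisors.card * ((C * K) / D)) * (2 * Real.log K) := by
          apply mul_le_mul_of_nonneg_right _ (by positivity)
          have h3 : (P2.card : ℝ) ≤ ((N.divisors.card * ((C * K) / D) : ℕ) : ℝ) := by
            exact_mod_cast hcard
          refine h3.trans ?_
          push_cast
          apply mul_le_mul_of_nonneg_left _ (by positivity)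
          have := Nat.cast_div_le (α := ℝ) (m := C * K) (n := D)
          refine this.trans (le_of_eq ?_)
          push_cast; ring
      _ ≤ ((((8 : ℝ) ^ 8) ^ (1 / 3 : ℝ) * (K : ℝ) ^ (1 / 3 : ℝ)) * ((C * K) / D)) *
          (2 * Real.log K) := by gcongr
      _ = (c2 * ((K : ℝ) ^ (1 / 3 : ℝ) * (2 * Real.log K))) * K / D := by
          rw [hc2]; ring
      _ ≤ δ / 2 * K := by
          rw [div_le_iff₀ hDpos]
          have h3 : c2 * ((K : ℝ) ^ (1 / 3 : ℝ) * (2 * Real.log K)) ≤ δ / 2 * D := by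
            rw [Real.norm_of_nonneg (by positivity), Real.norm_of_nonneg (by positivity)] at hb
            have h4 : δ / 2 * θ ^ (1 / 2 : ℝ) * (K : ℝ) ^ (1 / 2 : ℝ) =
                δ / 2 * Real.sqrt (θ * K) := by
              rw [Real.sqrt_eq_rpow, Real.mul_rpow hθ0.le hKpos.le]; ring
            rw [h4] at hb
            have h5 : δ / 2 * (Real.sqrt (θ * K) - 1) ≤ δ / 2 * D := by gcongr
            linarith
          calc c2 * ((K : ℝ) ^ (1 / 3 : ℝ) * (2 * Real.log K)) * K ≤ δ / 2 * D * K := by gcongr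
            _ = _ := by ring
  rw [hsplit]
  calc _ ≤ δ / 2 * K + δ / 2 * K := add_le_add hS1' hS2
    _ = _ := by ring

/-- the contribution of the bounded primes is `o(K)`. -/
theorem bounded_primes (a : ℤ) (h0 : a ≠ 0) (h1 : a ≠ 1) (h2 : a ≠ -1) (Q : ℕ) (δ : ℝ)
    (hδ : 0 < δ) : ∃ K0 : ℕ, ∀ K : ℕ, K0 ≤ K → ∀ N : ℕ, N ≠ 0 → N ≤ K →
      ∑ p ∈ (a ^ N - 1).natAbs.primeFactors with p < Q,
        ((a ^ N - 1).natAbs.factorization p : ℝ) * Real.log p ≤ δ * K := by
  classical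
  choose! c hc using fun (p : ℕ) (hp : p.Prime) => val_bound a h0 h1 h2 p hp
  set B : ℝ := ∑ p ∈ Finset.range Q, (c p : ℝ) * |Real.log p| with hB
  have hB0 : 0 ≤ B := Finset.sum_nonneg fun p _ => by positivity
  have hlo : (fun x : ℝ => B + Q * Real.log x) =o[atTop] (fun x : ℝ => x) := by
    apply IsLittleO.add
    · rw [isLittleO_const_left]
      right
      exact tendsto_norm_atTop_atTop.comp tendsto_id
    · exact Real.isLittleO_log_id_atTop.const_mul_left _
  obtain ⟨x0, hx0⟩ := eventually_atTop.mp ((hlo.def hδ).and (eventually_ge_atTop (1 : ℝ)))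
  refine ⟨Nat.ceil x0, fun K hK N hN hNK => ?_⟩
  have hKx : x0 ≤ (K : ℝ) := (Nat.le_ceil _).trans (by exact_mod_cast hK)
  obtain ⟨hb, hK1⟩ := hx0 K hKx
  have hlogK : 0 ≤ Real.log K := Real.log_nonneg hK1
  have hN1 : (1 : ℝ) ≤ N := by exact_mod_cast Nat.one_le_iff_ne_zero.mpr hN
  have hlogN : Real.log N ≤ Real.log K :=
    Real.log_le_log (by linarith) (by exact_mod_cast hNK)
  set n := (a ^ N - 1).natAbs with hn
  have hstep : ∀ p ∈ n.primeFactors.filter (fun p => p < Q),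
      (n.factorization p : ℝ) * Real.log p ≤ (c p : ℝ) * |Real.log p| + Real.log K := by
    intro p hp
    have hpp := Nat.prime_of_mem_primeFactors (Finset.mem_filter.mp hp).1
    have h3 : (p : ℤ) ^ (n.factorization p) ∣ a ^ N - 1 := by
      have h4 : p ^ n.factorization p ∣ n := Nat.ordProj_dvd n p
      have h5 : ((p ^ n.factorization p : ℕ) : ℤ) ∣ a ^ N - 1 := Int.natCast_dvd.mpr h4
      exact_mod_cast h5
    have h6 := hc p hpp N hN _ h3
    have h7 : (c p : ℝ) * Real.log p ≤ (c p : ℝ) * |Real.log p| := by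
      gcongr
      exact le_abs_self _
    linarith
  have hsub : n.primeFactors.filter (fun p => p < Q) ⊆ Finset.range Q := by
    intro p hp
    exact Finset.mem_range.mpr (Finset.mem_filter.mp hp).2
  calc _ ≤ ∑ p ∈ n.primeFactors.filter (fun p => p < Q), ((c p : ℝ) * |Real.log p| + Real.log K) :=
        Finset.sum_le_sum hstep
    _ ≤ ∑ p ∈ Finset.range Q, ((c p : ℝ) * |Real.log p| + Real.log K) :=
        Finset.sum_le_sum_of_subset_of_nonneg hsub fun p _ _ => by positivity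
    _ = B + Q * Real.log K := by
        rw [Finset.sum_add_distrib, Finset.sum_const, Finset.card_range, nsmul_eq_mul]
    _ ≤ δ * K := by
        rw [Real.norm_of_nonneg (by positivity), Real.norm_of_nonneg (by linarith)] at hb
        exact hb

end Pool.Agent.Helper381.QC
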