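import Pool.Agent.Helper381.QC.Alg
import Pool.Agent.Helper381.QC.NT

set_option autoImplicit false

/-! Assembly. -/

open Polynomial

namespace Pool.Agent.Helper381.QC

theorem trivial_bounds (p : ℕ) (hp : p.Prime) {A : Type} [CommRing A] (t : A) (M : ℕ)
    (ht : ∀ x : A, ∃ P : ℤ[X], aeval t P = x) (h1 : t ^ M = 1) (hM : M ≠ 0) :
    0 < (Hn A p).index ∧ 0 < (Hn A (p * p)).relIndex (Hn A p) ∧
    Real.log (Hn A p).index ≤ M * Real.log p ∧
    Real.log ((Hn A (p * p)).relIndex (Hn A p)) ≤ Real.log (Hn A p).index := by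
  have : Fact p.Prime := ⟨hp⟩
  obtain ⟨h3, h4⟩ := lay0 p t M ht h1 hM
  have h5 := relIndex_dvd A p p
  have h6 : 0 < (Hn A (p * p)).relIndex (Hn A p) := Nat.pos_of_dvd_of_pos h5 h3
  refine ⟨h3, h6, ?_, ?_⟩
  · rw [← Real.log_pow]
    apply Real.log_le_log (by exact_mod_cast h3)
    exact_mod_cast h4
  · apply Real.log_le_log (by exact_mod_cast h6)
    exact_mod_cast Nat.le_of_dvd h3 h5

theorem log_le_of_pow {x p k : ℕ} (hp : p.Prime) (hx : 0 < x) (hxk : x ≤ p ^ k) (B : ℝ)
    (hk : (k : ℝ) ≤ B) : Real.log x ≤ B * Real.log p := by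
  have h1 : Real.log x ≤ k * Real.log p := by
    rw [← Real.log_pow]
    apply Real.log_le_log (by exact_mod_cast hx)
    exact_mod_cast hxk
  have h2 : 0 ≤ Real.log p := Real.log_nonneg (by exact_mod_cast hp.one_lt.le)
  exact h1.trans (mul_le_mul_of_nonneg_right hk h2)

theorem consts (ε : ℝ) (hε : 0 < ε) : ∃ C M0 P1 : ℕ, ∀ (A : Type) [CommRing A] (t : A) (M : ℕ),
    M0 ≤ M → M ≠ 0 → (∀ x : A, ∃ P : ℤ[X], aeval t P = x) → t ^ M = 1 → (t + 1) ^ M = 1 →
    ∀ p : ℕ, p.Prime →
    (C * M ≤ p → Real.log (Hn A p).index ≤ ε * M * Real.log p) ∧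
    (P1 ≤ p → Real.log ((Hn A (p * p)).relIndex (Hn A p)) ≤ ε * M * Real.log p) := by
  obtain ⟨b1, hb1⟩ := exists_nat_gt (4 / ε)
  have hb1' : 1 ≤ b1 := by
    have : (0 : ℝ) < b1 := lt_trans (by positivity) hb1
    exact_mod_cast this
  set C := 2 * b1 with hC
  obtain ⟨b0, hb0⟩ := exists_nat_gt (4 * (1 + C) / ε)
  set b2 := b0 + 2 with hb2
  obtain ⟨q, hq⟩ := exists_nat_gt (2 / ε)
  refine ⟨C, 4 * b1 ^ 3, max ((b2 ^ 2 - 1) * (2 * b2 + (b2 ^ 2 - 1 + C * (2 * b2))) * (2 * b2)) q,
    fun A _ t M hM hM0 ht h1 h2 p hp => ?_⟩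
  have : Fact p.Prime := ⟨hp⟩
  obtain ⟨t1, t2, t3, t4⟩ := trivial_bounds p hp t M ht h1 hM0
  have hfirst : C * M ≤ p → Real.log (Hn A p).index ≤ ε * M * Real.log p := by
    intro hCM
    obtain ⟨k, hk1, hk2, hk3⟩ := lay1 p t M ht h1 h2 b1 hb1' hM hCM
    apply log_le_of_pow hp hk2 hk3
    have h3 : (b1 : ℝ) * k ≤ 4 * M := by exact_mod_cast hk1
    have h4 : 4 < ε * b1 := by
      rw [div_lt_iff₀ hε] at hb1
      linarith
    have hb1pos : (0 : ℝ) < b1 := by exact_mod_cast hb1'
    have h5 : (b1 : ℝ) * k ≤ b1 * (ε * M) := by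
      calc (b1 : ℝ) * k ≤ 4 * M := h3
        _ ≤ (ε * b1) * M := by gcongr
        _ = _ := by ring
    exact le_of_mul_le_mul_left h5 hb1pos
  refine ⟨hfirst, fun hP1 => ?_⟩
  by_cases hpM : p ∣ M
  · obtain ⟨k, hk1, hk2, hk3⟩ := lay3 p t M ht h1 h2 hM0 hpM
    apply log_le_of_pow hp hk2 hk3
    have h3 : (p : ℝ) * k ≤ 2 * M := by exact_mod_cast hk1
    have h4 : (q : ℝ) ≤ p := by exact_mod_cast (le_max_right _ _).trans hP1
    have h5 : 2 < ε * p := by
      rw [div_lt_iff₀ hε] at hq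
      calc (2 : ℝ) < q * ε := hq
        _ ≤ p * ε := by gcongr
        _ = _ := by ring
    have hppos : (0 : ℝ) < p := by exact_mod_cast hp.pos
    have h6 : (p : ℝ) * k ≤ p * (ε * M) := by
      calc (p : ℝ) * k ≤ 2 * M := h3
        _ ≤ (ε * p) * M := by gcongr
        _ = _ := by ring
    exact le_of_mul_le_mul_left h6 hppos
  · rcases le_total p (C * M) with hpC | hpC
    · obtain ⟨k, hk1, hk2, hk3⟩ := lay2 p t M ht h1 h2 b2 C (by omega) hpM hpC
        ((le_max_left _ _).trans hP1)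
      apply log_le_of_pow hp hk2 hk3
      have h3 : ((b2 ^ 2 - 1 : ℕ) : ℝ) * k ≤ 2 * b2 * (1 + C) * M := by exact_mod_cast hk1
      have hb2' : 1 ≤ b2 ^ 2 := Nat.one_le_pow _ _ (by omega)
      rw [Nat.cast_sub hb2'] at h3
      push_cast at h3
      have hb2r : (2 : ℝ) ≤ b2 := by rw [hb2]; push_cast; linarith [(Nat.cast_nonneg b0 : (0:ℝ) ≤ b0)]
      have h4 : 4 * (1 + (C : ℝ)) ≤ ε * b2 := by
        rw [div_lt_iff₀ hε] at hb0
        have : (b0 : ℝ) ≤ b2 := by rw [hb2]; push_cast; linarith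
        nlinarith
      have h5 : ((b2 : ℝ) ^ 2) / 2 * k ≤ ((b2 : ℝ) ^ 2 - 1) * k := by
        apply mul_le_mul_of_nonneg_right _ (Nat.cast_nonneg k)
        nlinarith
      have h6 : ((b2 : ℝ) ^ 2) / 2 * k ≤ (b2 : ℝ) ^ 2 / 2 * (ε * M) := by
        calc ((b2 : ℝ) ^ 2) / 2 * k ≤ 2 * b2 * (1 + C) * M := h5.trans h3
          _ = (b2 / 2) * (4 * (1 + C)) * M := by ring
          _ ≤ (b2 / 2) * (ε * b2) * M := by gcongr
          _ = _ := by ring
      exact le_of_mul_le_mul_left h6 (by positivity)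
    · exact t4.trans (hfirst hpC)

/-- the decomposition over the primes. -/
theorem log_card_le {A : Type} [CommRing A] (t : A) (M : ℕ)
    (ht : ∀ x : A, ∃ P : ℤ[X], aeval t P = x) (h1 : t ^ M = 1) (hM : M ≠ 0) (n : ℕ) (hn : n ≠ 0)
    (hnA : (n : A) = 0) :
    Real.log (Nat.card A) ≤ ∑ p ∈ n.primeFactors, (Real.log (Hn A p).index +
      ((n.factorization p - 1 : ℕ) : ℝ) * Real.log ((Hn A (p * p)).relIndex (Hn A p))) := by
  have h2 : Hn A n = Hn A 0 := by
    unfold Hn mulN
    rw [hnA, Nat.cast_zero]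
  have h3 := index_dvd_prod A n hn
  rw [h2, index_zero] at h3
  have hpos : ∀ p ∈ n.primeFactors, 0 < (Hn A p).index *
      ((Hn A (p * p)).relIndex (Hn A p)) ^ (n.factorization p - 1) := by
    intro p hp
    obtain ⟨t1, t2, _, _⟩ := trivial_bounds p (Nat.prime_of_mem_primeFactors hp) t M ht h1 hM
    positivity
  have h4 := Nat.le_of_dvd (Finset.prod_pos hpos) h3
  have h5 : 0 < Nat.card A := Nat.pos_of_dvd_of_pos h3 (Finset.prod_pos hpos)
  calc Real.log (Nat.card A) ≤ Real.log ((∏ p ∈ n.primeFactors, ((Hn A p).index *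
      ((Hn A (p * p)).relIndex (Hn A p)) ^ (n.factorization p - 1)) : ℕ) : ℝ) :=
        Real.log_le_log (by exact_mod_cast h5) (by exact_mod_cast h4)
    _ = _ := by
        rw [Nat.cast_prod, Real.log_prod]
        · apply Finset.sum_congr rfl
          intro p hp
          obtain ⟨t1, t2, _, _⟩ :=
            trivial_bounds p (Nat.prime_of_mem_primeFactors hp) t M ht h1 hM
          have t1' : ((Hn A p).index : ℝ) ≠ 0 := by exact_mod_cast t1.ne'
          have t2' : (((Hn A (p * p)).relIndex (Hn A p) : ℕ) : ℝ) ≠ 0 := by exact_mod_cast t2.ne'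
          rw [Nat.cast_mul, Nat.cast_pow, Real.log_mul t1' (pow_ne_zero _ t2'), Real.log_pow]
        · intro p hp
          exact_mod_cast (hpos p hp).ne'

theorem log_eq_sum (n : ℕ) (hn : n ≠ 0) :
    ∑ p ∈ n.primeFactors, (n.factorization p : ℝ) * Real.log p = Real.log n := by
  have h1 : ∏ p ∈ n.primeFactors, p ^ n.factorization p = n :=
    Nat.prod_factorization_pow_eq_self hn
  conv_rhs => rw [← h1]
  rw [Nat.cast_prod, Real.log_prod]
  · apply Finset.sum_congr rfl
    intro p _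
    rw [Nat.cast_pow, Real.log_pow]
  · intro p hp
    have := (Nat.prime_of_mem_primeFactors hp).ne_zero
    exact_mod_cast pow_ne_zero _ this

/-- Main theorem for rings generated by one element. -/
theorem main_ring (a : ℤ) (h0 : a ≠ 0) (h1 : a ≠ 1) (h2 : a ≠ -1) (ε : ℝ) (hε : 0 < ε) :
    ∃ c : ℝ, ∀ M N : ℕ, 1 ≤ M → 1 ≤ N → ∀ (A : Type) [CommRing A] (t : A),
      (∀ x : A, ∃ P : ℤ[X], aeval t P = x) → t ^ M = 1 → (t + 1) ^ M = 1 →
      (((a ^ N - 1).natAbs : ℕ) : A) = 0 →
      Real.log (Nat.card A) ≤ ε * ((max M N : ℕ) : ℝ) ^ 2 + c := by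
  classical
  set ca : ℝ := Real.log (a.natAbs + 1) with hca
  have hca0 : 0 ≤ ca := Real.log_nonneg (by
    have : (0 : ℝ) ≤ a.natAbs := Nat.cast_nonneg _
    linarith)
  set ε1 : ℝ := ε / (2 * (ca + 1)) with hε1
  have hε10 : 0 < ε1 := by positivity
  have hε1ca : ε1 * ca ≤ ε / 2 := by
    rw [hε1, div_mul_eq_mul_div, div_le_div_iff₀ (by positivity) (by norm_num)]
    nlinarith
  obtain ⟨C, M0, P1, hcon⟩ := consts ε1 hε10
  obtain ⟨K1, hK1⟩ := small_primes a h0 h1 h2 C (ε / 4) (by positivity)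
  obtain ⟨K2, hK2⟩ := bounded_primes a h0 h1 h2 P1 (ε / 4) (by positivity)
  set c1 : ℝ := (M0 * ca) ^ 2 / (4 * ε) with hc1
  set c2 : ℝ := ((K1 : ℝ) + K2) ^ 2 * ca with hc2
  have hc10 : 0 ≤ c1 := by positivity
  have hc20 : 0 ≤ c2 := by positivity
  refine ⟨c1 + c2, fun M N hM hN A _ t ht hA1 hA2 hA0 => ?_⟩
  set K := max M N with hK
  have hMK : M ≤ K := le_max_left _ _
  have hNK : N ≤ K := le_max_right _ _
  have hMKr : (M : ℝ) ≤ K := by exact_mod_cast hMK
  have hNKr : (N : ℝ) ≤ K := by exact_mod_cast hNK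
  have hM0' : M ≠ 0 := by omega
  have hN0 : N ≠ 0 := by omega
  set n := (a ^ N - 1).natAbs with hn
  have hn0 : n ≠ 0 := natAbs_ne a h0 h1 h2 N hN0
  have hlogn : Real.log n ≤ N * ca := log_natAbs_le a h0 h1 h2 N hN0
  have hdec := log_card_le t M ht hA1 hM0' n hn0 hA0
  have hefac : ∀ p ∈ n.primeFactors, 1 ≤ n.factorization p := fun p hp =>
    (Nat.prime_of_mem_primeFactors hp).factorization_pos_of_dvd hn0 (Nat.dvd_of_mem_primeFactors hp)
  have hlogp : ∀ p ∈ n.primeFactors, 0 ≤ Real.log p := fun p hp =>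
    Real.log_nonneg (by exact_mod_cast (Nat.prime_of_mem_primeFactors hp).one_lt.le)
  -- trivial bound
  have htriv : Real.log (Nat.card A) ≤ M * (N * ca) := by
    refine hdec.trans ?_
    calc _ ≤ ∑ p ∈ n.primeFactors, (M : ℝ) * ((n.factorization p : ℝ) * Real.log p) := by
          apply Finset.sum_le_sum
          intro p hp
          obtain ⟨_, _, t3, t4⟩ :=
            trivial_bounds p (Nat.prime_of_mem_primeFactors hp) t M ht hA1 hM0'
          have he := hefac p hp
          have he' : ((n.factorization p - 1 : ℕ) : ℝ) = n.factorization p - 1 := by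
            rw [Nat.cast_sub he]; simp
          have he1 : (0 : ℝ) ≤ (n.factorization p : ℝ) - 1 := by
            have : (1 : ℝ) ≤ n.factorization p := by exact_mod_cast he
            linarith
          rw [he']
          have h3 := mul_le_mul_of_nonneg_left (t4.trans t3) he1
          nlinarith
      _ = M * Real.log n := by rw [← Finset.mul_sum, log_eq_sum n hn0]
      _ ≤ _ := by gcongr
  by_cases hcase : M0 ≤ M ∧ K1 + K2 ≤ K
  · obtain ⟨hMM, hKK⟩ := hcase
    have hcon' := hcon A t M hMM hM0' ht hA1 hA2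
    have hS1 := hK1 K (by omega) N hN0 hNK
    have hS2 := hK2 K (by omega) N hN0 hNK
    rw [← hn] at hS1 hS2
    have hmain : Real.log (Nat.card A) ≤
        M * (∑ p ∈ n.primeFactors with p ≤ C * K, Real.log p) + ε1 * M * Real.log n +
        M * (∑ p ∈ n.primeFactors with p < P1, (n.factorization p : ℝ) * Real.log p) := by
      refine hdec.trans ?_
      rw [Finset.sum_filter, Finset.sum_filter, ← log_eq_sum n hn0, Finset.mul_sum,
        Finset.mul_sum, Finset.mul_sum, ← Finset.sum_add_distrib, ← Finset.sum_add_distrib]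
      apply Finset.sum_le_sum
      intro p hp
      have hpp := Nat.prime_of_mem_primeFactors hp
      obtain ⟨_, _, t3, t4⟩ := trivial_bounds p hpp t M ht hA1 hM0'
      obtain ⟨u1, u2⟩ := hcon' p hpp
      have he := hefac p hp
      have he' : ((n.factorization p - 1 : ℕ) : ℝ) = n.factorization p - 1 := by
        rw [Nat.cast_sub he]; simp
      have he1 : (0 : ℝ) ≤ (n.factorization p : ℝ) - 1 := by
        have : (1 : ℝ) ≤ n.factorization p := by exact_mod_cast he
        linarith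
      have hlp := hlogp p hp
      rw [he']
      have v1 : Real.log (Hn A p).index ≤ M * (if p ≤ C * K then Real.log p else 0) +
          ε1 * M * Real.log p := by
        split_ifs with h
        · have : 0 ≤ ε1 * M * Real.log p := by positivity
          linarith
        · rw [mul_zero, zero_add]
          apply u1
          have : C * M ≤ C * K := Nat.mul_le_mul_left _ hMK
          omega
      have v2 : ((n.factorization p : ℝ) - 1) *
          Real.log ((Hn A (p * p)).relIndex (Hn A p)) ≤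
          ((n.factorization p : ℝ) - 1) * (ε1 * M * Real.log p) +
          M * (if p < P1 then (n.factorization p : ℝ) * Real.log p else 0) := by
        split_ifs with h
        · have h3 := mul_le_mul_of_nonneg_left (t4.trans t3) he1
          have h4 : 0 ≤ ((n.factorization p : ℝ) - 1) * (ε1 * M * Real.log p) := by positivity
          have h5 : ((n.factorization p : ℝ) - 1) * (M * Real.log p) ≤
              M * ((n.factorization p : ℝ) * Real.log p) := by
            have : 0 ≤ (M : ℝ) * Real.log p := by positivity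
            nlinarith
          linarith
        · rw [mul_zero, add_zero]
          exact mul_le_mul_of_nonneg_left (u2 (not_lt.mp h)) he1
      calc _ ≤ (M * (if p ≤ C * K then Real.log p else 0) + ε1 * M * Real.log p) +
            (((n.factorization p : ℝ) - 1) * (ε1 * M * Real.log p) +
            M * (if p < P1 then (n.factorization p : ℝ) * Real.log p else 0)) :=
            add_le_add v1 v2
        _ = _ := by ring
    have hKnn : (0 : ℝ) ≤ K := Nat.cast_nonneg _
    calc Real.log (Nat.card A) ≤ M * (ε / 4 * K) + ε1 * M * (N * ca) + M * (ε / 4 * K) := by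
          refine hmain.trans ?_
          gcongr
      _ = M * (ε / 4 * K) + (ε1 * ca) * (M * N) + M * (ε / 4 * K) := by ring
      _ ≤ K * (ε / 4 * K) + (ε / 2) * (K * K) + K * (ε / 4 * K) := by gcongr
      _ = ε * (K : ℝ) ^ 2 := by ring
      _ ≤ ε * (K : ℝ) ^ 2 + (c1 + c2) := by linarith
  · -- small cases
    have hKnn : (0 : ℝ) ≤ K := Nat.cast_nonneg _
    rw [not_and_or] at hcase
    rcases hcase with h | h
    · have hMlt : (M : ℝ) ≤ M0 := by exact_mod_cast (not_le.mp h).le
      have h3 : Real.log (Nat.card A) ≤ M0 * (K * ca) := htriv.trans (by gcongr)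
      have h4 : (M0 : ℝ) * (K * ca) ≤ ε * (K : ℝ) ^ 2 + c1 := by
        rw [hc1]
        have h5 : 0 ≤ (2 * ε * K - M0 * ca) ^ 2 / (4 * ε) := by positivity
        have h6 : (2 * ε * K - M0 * ca) ^ 2 / (4 * ε) =
            ε * (K : ℝ) ^ 2 + (M0 * ca) ^ 2 / (4 * ε) - M0 * (K * ca) := by
          field_simp
          ring
        linarith
      linarith
    · have hKlt : (K : ℝ) ≤ (K1 : ℝ) + K2 := by exact_mod_cast (not_le.mp h).le
      have h3 : Real.log (Nat.card A) ≤ c2 := by
        refine htriv.trans ?_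
        rw [hc2]
        calc (M : ℝ) * (N * ca) ≤ K * (K * ca) := by gcongr
          _ = (K : ℝ) ^ 2 * ca := by ring
          _ ≤ _ := by gcongr
      have h4 : 0 ≤ ε * (K : ℝ) ^ 2 := by positivity
      linarith

end Pool.Agent.Helper381.QC
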