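import Mathlib

set_option autoImplicit false

/-! The truncated logarithm and the sparse nonvanishing lemma. -/

open Polynomial

namespace Pool.Agent.Helper381.QC

variable (p : ℕ) [hp : Fact p.Prime]

theorem exists_L : ∃ L : ℤ[X], (X + 1 : ℤ[X]) ^ p = X ^ p + 1 + (p : ℤ[X]) * L := by
  obtain ⟨r, hr⟩ := exists_add_pow_prime_eq hp.out (X : ℤ[X]) 1
  exact ⟨X * r, by rw [hr]; ring⟩

/-- the integer polynomial `((X+1)^p - X^p - 1)/p`. -/
noncomputable def LZ : ℤ[X] := (exists_L p).choose

theorem LZ_spec : (X + 1 : ℤ[X]) ^ p = X ^ p + 1 + (p : ℤ[X]) * LZ p := (exists_L p).choose_spec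

theorem LZ_eq : (C (p : ℤ)) * LZ p = (X + 1 : ℤ[X]) ^ p - X ^ p - 1 := by
  rw [LZ_spec p]; simp; ring

theorem natDegree_LZ_le : (LZ p).natDegree ≤ p - 1 := by
  have hp0 : (p : ℤ) ≠ 0 := by exact_mod_cast hp.out.ne_zero
  have h1 : (LZ p).natDegree = (C (p : ℤ) * LZ p).natDegree := by
    rw [natDegree_C_mul hp0]
  rw [h1, LZ_eq p]
  apply natDegree_le_pred
  · have h2 : ((X + 1 : ℤ[X]) ^ p).natDegree ≤ p := by
      have := natDegree_pow_le (p := (X + 1 : ℤ[X])) (n := p)
      have h3 : (X + 1 : ℤ[X]).natDegree = 1 := by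
        have := natDegree_X_add_C (1 : ℤ)
        simpa using this
      rw [h3] at this; simpa using this
    refine (natDegree_sub_le _ _).trans (max_le ((natDegree_sub_le _ _).trans (max_le h2 ?_)) ?_)
    · exact natDegree_X_pow_le p
    · simp
  · have h4 : ((X + 1 : ℤ[X]) ^ p).coeff p = 1 := by
      have := coeff_X_add_one_pow ℤ p p
      rw [this]; simp
    rw [coeff_sub, coeff_sub, h4, coeff_X_pow, coeff_one]
    simp [hp.out.ne_zero]

theorem derivative_LZ : derivative (LZ p) = (X + 1) ^ (p - 1) - X ^ (p - 1) := by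
  have hp0 : (C (p : ℤ)) ≠ 0 := by
    have : (p : ℤ) ≠ 0 := by exact_mod_cast hp.out.ne_zero
    simpa using this
  apply mul_left_cancel₀ hp0
  have h := congrArg derivative (LZ_eq p)
  rw [derivative_C_mul] at h
  rw [h]
  simp only [derivative_sub, derivative_pow, derivative_X, derivative_one, derivative_add]
  simp
  ring

/-- the reduction mod `p`. -/
noncomputable def LF : (ZMod p)[X] := (LZ p).map (Int.castRingHom (ZMod p))

theorem natDegree_LF_le : (LF p).natDegree ≤ p - 1 :=
  natDegree_map_le.trans (natDegree_LZ_le p)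

theorem add_one_pow_p : (X + 1 : (ZMod p)[X]) ^ p = X ^ p + 1 := by
  rw [add_pow_char, one_pow]

theorem derivative_LF : derivative (LF p) = (X + 1) ^ (p - 1) - X ^ (p - 1) := by
  unfold LF
  rw [derivative_map, derivative_LZ]
  simp

theorem delta_LF : X * (X + 1) * derivative (LF p) = X - X ^ p := by
  have h1 : (X : (ZMod p)[X]) ^ p = X ^ (p - 1) * X := by
    rw [← pow_succ, Nat.sub_add_cancel hp.out.one_le]
  have h2 : (X + 1 : (ZMod p)[X]) ^ p = (X + 1) ^ (p - 1) * (X + 1) := by
    rw [← pow_succ, Nat.sub_add_cancel hp.out.one_le]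
  rw [derivative_LF]
  have h3 := add_one_pow_p p
  calc X * (X + 1) * ((X + 1) ^ (p - 1) - X ^ (p - 1))
      = X * ((X + 1) ^ (p - 1) * (X + 1)) - (X + 1) * (X ^ (p - 1) * X) := by ring
    _ = X * (X ^ p + 1) - (X + 1) * X ^ p := by rw [← h1, ← h2, h3]
    _ = X - X ^ p := by ring

theorem X_mul_derivative_LF : X * derivative (LF p) = 1 - (X + 1) ^ (p - 1) := by
  have h0 : (X + 1 : (ZMod p)[X]) ≠ 0 := by
    have := X_add_C_ne_zero (1 : ZMod p)
    simpa using this
  apply mul_left_cancel₀ h0
  have h2 : (X + 1 : (ZMod p)[X]) ^ p = (X + 1) ^ (p - 1) * (X + 1) := by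
    rw [← pow_succ, Nat.sub_add_cancel hp.out.one_le]
  have h3 := add_one_pow_p p
  calc (X + 1) * (X * derivative (LF p)) = X * (X + 1) * derivative (LF p) := by ring
    _ = X - X ^ p := delta_LF p
    _ = (X + 1) - (X ^ p + 1) := by ring
    _ = (X + 1) - (X + 1) ^ (p - 1) * (X + 1) := by rw [← h3, h2]
    _ = _ := by ring

/-- The sparse nonvanishing lemma. -/
theorem sparse (m : ℕ) : m ≤ p → ∀ (s : Finset ℕ) (_ : ∀ r ∈ s, r < p)
    (P : ℕ → (ZMod p)[X]) (d : ℕ → ℕ) (_ : ∀ r ∈ s, (P r).degree < d r)
    (_ : ∑ r ∈ s, d r ≤ m)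
    (_ : (X + 1) ^ m ∣ ∑ r ∈ s, X ^ r * (P r).comp (LF p)), ∀ r ∈ s, P r = 0 := by
  induction m with
  | zero =>
    intro _ s _ P d hP hd _ r hr
    have h1 : d r = 0 := by
      have := Finset.single_le_sum (f := d) (fun i _ => Nat.zero_le _) hr
      omega
    have h2 := hP r hr
    rw [h1] at h2
    by_contra h
    rw [degree_eq_natDegree h] at h2
    exact absurd h2 (by simp)
  | succ m ih =>
    intro hm s hs P d hP hd hdvd
    by_contra hcon
    push Not at hcon
    obtain ⟨r0, hr0, hPr0⟩ := hcon
    -- the new polynomials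
    set P' : ℕ → (ZMod p)[X] := fun r => C ((r : ZMod p) - r0) * P r + derivative (P r) with hP'
    set d' : ℕ → ℕ := fun r => if r = r0 then d r - 1 else d r with hd'
    have hdr0 : 1 ≤ d r0 := by
      have h2 := hP r0 hr0
      by_contra h
      have h1 : d r0 = 0 := by omega
      rw [h1, degree_eq_natDegree hPr0] at h2
      exact absurd h2 (by simp)
    have hdeg' : ∀ r ∈ s, (P' r).degree < d' r := by
      intro r hr
      by_cases h : r = r0
      · subst h
        simp only [hP', hd', sub_self, C_0, zero_mul, zero_add, if_true]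
        have h1 := degree_derivative_lt hPr0
        have h2 := hP r hr
        rw [degree_eq_natDegree hPr0] at h1 h2
        have h3 : (P r).natDegree < d r := by exact_mod_cast h2
        refine lt_of_lt_of_le h1 ?_
        have : (P r).natDegree ≤ d r - 1 := by omega
        exact_mod_cast this
      · simp only [hP', hd', if_neg h]
        refine lt_of_le_of_lt (degree_add_le _ _) (max_lt ?_ ?_)
        · refine lt_of_le_of_lt ?_ (hP r hr)
          rw [degree_mul]
          calc _ ≤ 0 + (P r).degree := by gcongr; exact degree_C_le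
            _ = _ := zero_add _
        · exact lt_of_le_of_lt degree_derivative_le (hP r hr)
    have hsum' : ∑ r ∈ s, d' r ≤ m := by
      have h1 : ∑ r ∈ s, d r = ∑ r ∈ s, d' r + 1 := by
        rw [← Finset.add_sum_erase s d hr0, ← Finset.add_sum_erase s d' hr0]
        have h2 : ∑ r ∈ s.erase r0, d' r = ∑ r ∈ s.erase r0, d r := by
          apply Finset.sum_congr rfl
          intro r hr
          simp [hd', Finset.ne_of_mem_erase hr]
        rw [h2]
        simp only [hd', if_true]
        omega
      omega
    have hdvd' : (X + 1) ^ m ∣ ∑ r ∈ s, X ^ r * (P' r).comp (LF p) := by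
      set F := ∑ r ∈ s, X ^ r * (P r).comp (LF p) with hF
      have h1 : (X + 1) ^ m ∣ X * derivative F - C (r0 : ZMod p) * F := by
        obtain ⟨Q, hQ⟩ := hdvd
        have h2 : derivative F = (X + 1) ^ m * ((m + 1 : ZMod p) • Q + (X + 1) * derivative Q) := by
          rw [hQ, derivative_mul, derivative_pow_succ]
          simp only [derivative_add, derivative_X, derivative_one, add_zero, mul_one]
          rw [smul_eq_C_mul]
          simp
          ring
        rw [h2]
        refine dvd_sub ?_ ?_
        · exact (Dvd.intro _ rfl).mul_left _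
        · exact (hQ ▸ (pow_dvd_pow _ (Nat.le_succ m)).mul_right _ : (X+1)^m ∣ F).mul_left _
      have h3 : X * derivative F - C (r0 : ZMod p) * F =
          ∑ r ∈ s, X ^ r * (P' r).comp (LF p) -
          (X + 1) ^ (p - 1) * ∑ r ∈ s, X ^ r * (derivative (P r)).comp (LF p) := by
        rw [hF, derivative_sum, Finset.mul_sum, Finset.mul_sum, Finset.mul_sum,
          ← Finset.sum_sub_distrib, ← Finset.sum_sub_distrib]
        apply Finset.sum_congr rfl
        intro r hr
        rw [derivative_mul, derivative_comp]
        have h4 : X * derivative (X ^ r : (ZMod p)[X]) = C (r : ZMod p) * X ^ r := by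
          rcases r with _ | r
          · simp
          · rw [derivative_X_pow]
            simp
            ring
        have h5 := X_mul_derivative_LF p
        simp only [hP', add_comp, mul_comp, C_sub, sub_comp, C_comp]
        calc X * (derivative (X ^ r) * (P r).comp (LF p) +
              X ^ r * (derivative (LF p) * (derivative (P r)).comp (LF p))) -
              C (r0 : ZMod p) * (X ^ r * (P r).comp (LF p))
            = (X * derivative (X ^ r)) * (P r).comp (LF p) +
              X ^ r * ((X * derivative (LF p)) * (derivative (P r)).comp (LF p)) -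
              C (r0 : ZMod p) * (X ^ r * (P r).comp (LF p)) := by ring
          _ = _ := by rw [h4, h5]; ring
      rw [h3] at h1
      have h6 : (X + 1 : (ZMod p)[X]) ^ m ∣
          (X + 1) ^ (p - 1) * ∑ r ∈ s, X ^ r * (derivative (P r)).comp (LF p) :=
        (pow_dvd_pow _ (by omega)).mul_right _
      have := dvd_add h1 h6
      simpa using this
    have hzero := ih (by omega) s hs P' d' hdeg' hsum' hdvd'
    -- all `P r` with `r ≠ r0` vanish
    have hne : ∀ r ∈ s, r ≠ r0 → P r = 0 := by
      intro r hr hrr
      by_contra hPr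
      have h1 := hzero r hr
      simp only [hP'] at h1
      have h2 : C ((r : ZMod p) - r0) * P r = - derivative (P r) := by
        linear_combination h1
      have hc : ((r : ZMod p) - r0) ≠ 0 := by
        intro h
        have h3 : (r : ZMod p) = (r0 : ZMod p) := sub_eq_zero.mp h
        rw [ZMod.natCast_eq_natCast_iff'] at h3
        rw [Nat.mod_eq_of_lt (hs r hr), Nat.mod_eq_of_lt (hs r0 hr0)] at h3
        exact hrr h3
      have h4 : (C ((r : ZMod p) - r0) * P r).degree = (P r).degree := by
        rw [degree_mul, degree_C hc, zero_add]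
      rw [h2, degree_neg] at h4
      exact absurd h4 (ne_of_lt (degree_derivative_lt hPr))
    have hPc : P r0 = C ((P r0).coeff 0) := by
      have h1 := hzero r0 hr0
      simp only [hP', sub_self, C_0, zero_mul, zero_add] at h1
      have h2 := hP r0 hr0
      ext n
      rcases n with _ | n
      · simp
      · rw [coeff_C, if_neg (Nat.succ_ne_zero n)]
        by_cases hn : n + 1 < d r0
        · have h3 := congrArg (fun q => coeff q n) h1
          simp only [coeff_derivative, coeff_zero] at h3
          rcases mul_eq_zero.mp h3 with h | h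
          · exact h
          · exfalso
            have h4 : ((n + 1 : ℕ) : ZMod p) = 0 := by push_cast; exact h
            rw [ZMod.natCast_eq_zero_iff] at h4
            have h5 := Nat.le_of_dvd (Nat.succ_pos n) h4
            have h6 : d r0 ≤ m + 1 := by
              have := Finset.single_le_sum (f := d) (fun i _ => Nat.zero_le _) hr0
              omega
            omega
        · apply coeff_eq_zero_of_degree_lt
          refine lt_of_lt_of_le h2 ?_
          exact_mod_cast (not_lt.mp hn)
    have hsum : ∑ r ∈ s, X ^ r * (P r).comp (LF p) = X ^ r0 * C ((P r0).coeff 0) := by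
      rw [Finset.sum_eq_single_of_mem r0 hr0]
      · rw [hPc]; simp
      · intro r hr hrr
        rw [hne r hr hrr]; simp
    rw [hsum] at hdvd
    have h1 : (X + 1 : (ZMod p)[X]) ∣ X ^ r0 * C ((P r0).coeff 0) :=
      (dvd_pow_self _ (Nat.succ_ne_zero m)).trans hdvd
    obtain ⟨Q, hQ⟩ := h1
    have h2 := congrArg (eval (-1 : ZMod p)) hQ
    simp at h2
    apply hPr0
    rw [hPc, h2, C_0]

end Pool.Agent.Helper381.QC
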