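import Pool.Agent.Helper381.QC.Log

set_option autoImplicit false

/-! Nonvanishing of the auxiliary polynomials. -/

open Polynomial

namespace Pool.Agent.Helper381.QC

variable (p : ℕ) [hp : Fact p.Prime]

/-- sparse polynomials are not divisible by a high power of `X + 1`. -/
theorem sparse_one (s : Finset ℕ) (hs : ∀ r ∈ s, r < p) (m : ℕ) (hm : s.card ≤ m)
    (c : ℕ → ZMod p) (hdvd : (X + 1) ^ m ∣ ∑ r ∈ s, C (c r) * X ^ r) : ∀ r ∈ s, c r = 0 := by
  have hcard : s.card ≤ p := by
    have : s ⊆ Finset.range p := fun r hr => Finset.mem_range.mpr (hs r hr)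
    simpa using Finset.card_le_card this
  have h := sparse p s.card hcard s hs (fun r => C (c r)) (fun _ => 1)
    (fun r _ => lt_of_le_of_lt degree_C_le (by simp)) (by simp)
    (by
      refine (pow_dvd_pow _ hm).trans ?_
      convert hdvd using 1
      apply Finset.sum_congr rfl
      intro r _
      rw [C_comp]; ring)
  intro r hr
  have := h r hr
  simpa using this

/-- peeling off powers of `Z`. -/
theorem peel {R : Type*} [CommRing R] [IsDomain R] (Z : R) (hZ : Z ≠ 0) (V : Set R)
    (hV : ∀ f ∈ V, Z ∣ f → f = 0) (n : ℕ) : ∀ (f : ℕ → R) (_ : ∀ c < n, f c ∈ V)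
    (_ : ∑ c ∈ Finset.range n, f c * Z ^ c = 0), ∀ c < n, f c = 0 := by
  induction n with
  | zero => intro f _ _ c hc; omega
  | succ n ih =>
    intro f hf hsum
    rw [Finset.sum_range_succ'] at hsum
    have h1 : ∑ c ∈ Finset.range n, f (c + 1) * Z ^ (c + 1) =
        (∑ c ∈ Finset.range n, f (c + 1) * Z ^ c) * Z := by
      rw [Finset.sum_mul]
      apply Finset.sum_congr rfl
      intro c _
      ring
    rw [h1] at hsum
    have h0 : f 0 = 0 := by
      apply hV _ (hf 0 (Nat.succ_pos n))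
      refine ⟨-(∑ c ∈ Finset.range n, f (c + 1) * Z ^ c), ?_⟩
      linear_combination hsum
    rw [h0, zero_mul, add_zero] at hsum
    have h2 := (mul_eq_zero.mp hsum).resolve_right hZ
    have h3 := ih (fun c => f (c + 1)) (fun c hc => hf (c + 1) (by omega)) h2
    intro c hc
    rcases c with _ | c
    · exact h0
    · exact h3 c (by omega)

theorem X_add_one_ne : (X + 1 : (ZMod p)[X]) ≠ 0 := by
  have := X_add_C_ne_zero (1 : ZMod p)
  simpa using this

/-- Nonvanishing over the polynomials in `(X+1)^p`. -/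
theorem nonvan (W : ℕ) (s : Finset ℕ) (hs : ∀ r ∈ s, r < p) (hW : s.card * W ≤ p) (n : ℕ)
    (c : ℕ → ℕ → ℕ → ZMod p)
    (h : ∑ j ∈ Finset.range n, (∑ r ∈ s, ∑ w ∈ Finset.range W, C (c j r w) * X ^ r * LF p ^ w) *
      ((X + 1) ^ p) ^ j = 0) : ∀ j < n, ∀ r ∈ s, ∀ w < W, c j r w = 0 := by
  have key : ∀ c : ℕ → ℕ → ZMod p,
      (X + 1) ^ p ∣ (∑ r ∈ s, ∑ w ∈ Finset.range W, C (c r w) * X ^ r * LF p ^ w) →
      ∀ r ∈ s, ∀ w < W, c r w = 0 := by
    intro c hc
    have h1 := sparse p p le_rfl s hs (fun r => ∑ w ∈ Finset.range W, C (c r w) * X ^ w)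
      (fun _ => W) (fun r _ => ?_) (by simpa using hW) ?_
    · intro r hr w hw
      have h2 := congrArg (fun q => coeff q w) (h1 r hr)
      simpa [finsetSum_coeff, coeff_C_mul, coeff_X_pow, hw] using h2
    · rw [degree_lt_iff_coeff_zero]
      intro m hm
      rw [finsetSum_coeff]
      apply Finset.sum_eq_zero
      intro w hw
      rw [coeff_C_mul, coeff_X_pow, if_neg, mul_zero]
      have := Finset.mem_range.mp hw
      omega
    · convert hc using 1
      apply Finset.sum_congr rfl
      intro r _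
      simp only [Polynomial.sum_comp, mul_comp, C_comp, pow_comp, X_comp, Finset.mul_sum]
      apply Finset.sum_congr rfl
      intro w _
      ring
  have hV : ∀ f ∈ {f : (ZMod p)[X] | ∃ c : ℕ → ℕ → ZMod p,
      f = ∑ r ∈ s, ∑ w ∈ Finset.range W, C (c r w) * X ^ r * LF p ^ w},
      ((X + 1 : (ZMod p)[X]) ^ p) ∣ f → f = 0 := by
    intro f hf hc
    obtain ⟨c, hfc⟩ := hf
    rw [hfc] at hc
    have := key c hc
    rw [hfc]
    apply Finset.sum_eq_zero
    intro r hr
    apply Finset.sum_eq_zero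
    intro w hw
    rw [this r hr w (Finset.mem_range.mp hw), C_0, zero_mul, zero_mul]
  have hZ : ((X + 1 : (ZMod p)[X]) ^ p) ≠ 0 := pow_ne_zero _ (X_add_one_ne p)
  generalize hZZ : ((X + 1 : (ZMod p)[X]) ^ p) = Z at *
  have h2 := peel Z hZ _ hV n
    (fun j => ∑ r ∈ s, ∑ w ∈ Finset.range W, C (c j r w) * X ^ r * LF p ^ w)
    (fun j _ => ⟨c j, rfl⟩) h
  intro j hj
  have h3 := h2 j hj
  exact key (c j) (by rw [h3]; exact dvd_zero _)

/-- Nonvanishing for the auxiliary polynomial of the second Stepanov argument. -/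
theorem nonvan' (W : ℕ) (Λ : Finset ℕ) (hΛ : (Λ.image (· % p)).card * W ≤ p)
    (lam : ℕ → ℕ → ZMod p)
    (h : ∑ n ∈ Λ, ∑ w ∈ Finset.range W, C (lam n w) * X ^ n * LF p ^ w = 0) :
    ∀ n ∈ Λ, ∀ w < W, lam n w = 0 := by
  classical
  have hp0 := hp.out.pos
  set s := Λ.image (· % p) with hs
  obtain ⟨K, hK⟩ : ∃ K : ℕ, ∀ n ∈ Λ, n / p < K :=
    ⟨Λ.sup (fun n => n / p) + 1, fun n hn =>
      Nat.lt_succ_of_le (Finset.le_sup (f := fun n => n / p) hn)⟩
  -- coefficients with respect to powers of `Z = X^p + 1`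
  set c : ℕ → ℕ → ℕ → ZMod p := fun j r w =>
    ∑ n ∈ Λ with n % p = r, lam n w * (((X - 1 : (ZMod p)[X]) ^ (n / p)).coeff j) with hc
  have hexp : ∀ n ∈ Λ, ((X : (ZMod p)[X]) ^ p) ^ (n / p) =
      ∑ j ∈ Finset.range K, C (((X - 1 : (ZMod p)[X]) ^ (n / p)).coeff j) * ((X + 1) ^ p) ^ j := by
    intro n hn
    have h1 : ((X - 1 : (ZMod p)[X]) ^ (n / p)).natDegree < K := by
      refine lt_of_le_of_lt ?_ (hK n hn)
      have h3 : (X - 1 : (ZMod p)[X]).natDegree = 1 := by
        have := natDegree_X_sub_C (1 : ZMod p)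
        simpa using this
      have := natDegree_pow_le (p := (X - 1 : (ZMod p)[X])) (n := n / p)
      rw [h3] at this
      simpa using this
    have h2 := as_sum_range' _ K h1
    have h3 := congrArg (fun q : (ZMod p)[X] => q.comp ((X + 1) ^ p)) h2
    simp only [pow_comp, sub_comp, X_comp, one_comp, Polynomial.sum_comp,
      ← C_mul_X_pow_eq_monomial, mul_comp, C_comp] at h3
    rw [← h3, add_one_pow_p p]
    congr 1
    ring
  have h1 := nonvan p W s (by
      intro r hr
      rw [hs, Finset.mem_image] at hr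
      obtain ⟨n, _, rfl⟩ := hr
      exact Nat.mod_lt _ hp0) hΛ K c (by
    rw [← h]
    -- reorganize
    have h2 : ∀ j, (∑ r ∈ s, ∑ w ∈ Finset.range W, C (c j r w) * X ^ r * LF p ^ w) =
        ∑ n ∈ Λ, ∑ w ∈ Finset.range W, C (lam n w) *
          C (((X - 1 : (ZMod p)[X]) ^ (n / p)).coeff j) * X ^ (n % p) * LF p ^ w := by
      intro j
      have h3 : ∀ r ∈ s, (∑ w ∈ Finset.range W, C (c j r w) * X ^ r * LF p ^ w) =
          ∑ n ∈ Λ with n % p = r, ∑ w ∈ Finset.range W, C (lam n w) *
          C (((X - 1 : (ZMod p)[X]) ^ (n / p)).coeff j) * X ^ (n % p) * LF p ^ w := by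
        intro r _
        rw [Finset.sum_comm]
        apply Finset.sum_congr rfl
        intro w _
        simp only [hc, map_sum, Finset.sum_mul]
        apply Finset.sum_congr rfl
        intro n hn
        rw [(Finset.mem_filter.mp hn).2, C_mul]
      rw [Finset.sum_congr rfl h3]
      exact Finset.sum_fiberwise_of_maps_to (g := fun n => n % p)
        (fun n hn => Finset.mem_image_of_mem _ hn) _
    simp only [h2, Finset.sum_mul]
    rw [Finset.sum_comm]
    apply Finset.sum_congr rfl
    intro n hn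
    rw [Finset.sum_comm]
    apply Finset.sum_congr rfl
    intro w _
    have h4 : (X : (ZMod p)[X]) ^ n = X ^ (n % p) * (X ^ p) ^ (n / p) := by
      rw [← pow_mul, ← pow_add, Nat.mod_add_div]
    rw [h4, hexp n hn, Finset.mul_sum, Finset.mul_sum, Finset.sum_mul]
    apply Finset.sum_congr rfl
    intro j _
    ring)
  intro n0 hn0 w hw
  -- the polynomial `∑ lam (Y-1)^(n/p)` vanishes
  have h5 : ∑ n ∈ Λ with n % p = n0 % p, C (lam n w) * (X - 1 : (ZMod p)[X]) ^ (n / p) = 0 := by
    ext j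
    rw [finsetSum_coeff, coeff_zero]
    by_cases hj : j < K
    · have := h1 j hj (n0 % p) (Finset.mem_image_of_mem _ hn0) w hw
      simp only [hc] at this
      simpa [coeff_C_mul] using this
    · apply Finset.sum_eq_zero
      intro n hn
      rw [coeff_C_mul]
      have h3 : (X - 1 : (ZMod p)[X]).natDegree = 1 := by
        have := natDegree_X_sub_C (1 : ZMod p)
        simpa using this
      have h4 := natDegree_pow_le (p := (X - 1 : (ZMod p)[X])) (n := n / p)
      rw [h3] at h4
      have h6 := hK n (Finset.mem_filter.mp hn).1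
      rw [coeff_eq_zero_of_natDegree_lt (by omega), mul_zero]
  have h6 := congrArg (fun q : (ZMod p)[X] => (q.comp (X + 1)).coeff (n0 / p)) h5
  simp only [Polynomial.sum_comp, mul_comp, C_comp, pow_comp, sub_comp, X_comp, one_comp,
    add_sub_cancel_right, zero_comp, coeff_zero, finsetSum_coeff, coeff_C_mul, coeff_X_pow] at h6
  rw [Finset.sum_eq_single_of_mem n0 (by simp [hn0])] at h6
  · simpa using h6
  · intro n hn hne
    rw [if_neg, mul_zero]
    intro h7
    apply hne
    have h8 := (Finset.mem_filter.mp hn).2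
    rw [← Nat.mod_add_div n p, ← Nat.mod_add_div n0 p, h8, h7]

end Pool.Agent.Helper381.QC
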