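import Mathlib

set_option autoImplicit false

/-! Cardinalities of the layers. -/

open Polynomial

namespace Pool.Agent.Helper381.QC

/-- Quotients of cyclic rings of characteristic `p`. -/
theorem card_quot_le (p : ℕ) [hp : Fact p.Prime] {A : Type} [CommRing A] (τ : A)
    (hτ : ∀ x : A, ∃ P : ℤ[X], aeval τ P = x) (J : Ideal A) (hJ : (p : A) ∈ J)
    (f : (ZMod p)[X]) (hf : f ≠ 0)
    (hfJ : ∀ φ : (ZMod p)[X] →+* A ⧸ J, φ X = Ideal.Quotient.mk J τ → φ f = 0) :
    0 < Nat.card (A ⧸ J) ∧ Nat.card (A ⧸ J) ≤ p ^ f.natDegree := by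
  by_cases hJT : J = ⊤
  · have : Subsingleton (A ⧸ J) := Ideal.Quotient.subsingleton_iff.mpr hJT
    have h1 : Nat.card (A ⧸ J) = 1 := Nat.card_of_subsingleton 0
    rw [h1]
    exact ⟨Nat.one_pos, Nat.one_le_pow _ _ hp.out.pos⟩
  · have hnt : Nontrivial (A ⧸ J) := Ideal.Quotient.nontrivial_iff.mpr hJT
    have hp0 : (p : A ⧸ J) = 0 := by
      have : Ideal.Quotient.mk J (p : A) = 0 := Ideal.Quotient.eq_zero_iff_mem.mpr hJ
      simpa using this
    have hchar : CharP (A ⧸ J) p := by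
      obtain ⟨q, hq⟩ := CharP.exists (A ⧸ J)
      have h1 : q ∣ p := (CharP.cast_eq_zero_iff (A ⧸ J) q p).mp hp0
      rcases (Nat.dvd_prime hp.out).mp h1 with h | h
      · exfalso
        subst h
        have := CharP.cast_eq_zero (A ⧸ J) 1
        rw [Nat.cast_one] at this
        exact one_ne_zero this
      · rwa [h] at hq
    set φ : (ZMod p)[X] →+* A ⧸ J :=
      eval₂RingHom (ZMod.castHom (dvd_refl p) (A ⧸ J)) (Ideal.Quotient.mk J τ) with hφ
    have hφX : φ X = Ideal.Quotient.mk J τ := by simp [hφ]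
    have hφf := hfJ φ hφX
    have hcomp : ∀ P : ℤ[X], φ (P.map (Int.castRingHom (ZMod p))) =
        Ideal.Quotient.mk J (aeval τ P) := by
      intro P
      have : (φ.comp (mapRingHom (Int.castRingHom (ZMod p)))) =
          (Ideal.Quotient.mk J).comp (aeval τ : ℤ[X] →ₐ[ℤ] A).toRingHom := by
        apply Polynomial.ringHom_ext'
        · exact RingHom.ext_int _ _
        · simp [hφX]
      exact congrArg (fun g => g P) this
    have hsurj : Function.Surjective φ := by
      intro y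
      obtain ⟨x, rfl⟩ := Ideal.Quotient.mk_surjective y
      obtain ⟨P, rfl⟩ := hτ x
      exact ⟨_, hcomp P⟩
    have hle : Ideal.span {f} ≤ RingHom.ker φ := by
      rw [Ideal.span_le]
      rintro x hx
      rw [Set.mem_singleton_iff] at hx
      rw [hx]
      exact hφf
    set ψ : (ZMod p)[X] ⧸ Ideal.span {f} →+* A ⧸ J := Ideal.Quotient.lift _ φ
      (fun a ha => RingHom.mem_ker.mp (hle ha)) with hψ
    have hψs : Function.Surjective ψ := by
      intro y
      obtain ⟨x, hx⟩ := hsurj y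
      refine ⟨Ideal.Quotient.mk _ x, ?_⟩
      rw [hψ, Ideal.Quotient.lift_mk]
      exact hx
    have hfin : Module.Finite (ZMod p) ((ZMod p)[X] ⧸ Ideal.span {f}) :=
      (AdjoinRoot.powerBasis hf).finite
    have hcard : Nat.card ((ZMod p)[X] ⧸ Ideal.span {f}) = p ^ f.natDegree := by
      rw [Module.natCard_eq_pow_finrank (K := ZMod p), Nat.card_zmod,
        finrank_quotient_span_eq_natDegree]
    have hFin : Finite ((ZMod p)[X] ⧸ Ideal.span {f}) := by
      apply Nat.finite_of_card_ne_zero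
      rw [hcard]
      exact pow_ne_zero _ hp.out.ne_zero
    have hFin2 : Finite (A ⧸ J) := Finite.of_surjective ψ hψs
    refine ⟨Nat.card_pos, ?_⟩
    rw [← hcard]
    exact Nat.card_le_card_of_surjective ψ hψs

section Layers

variable (A : Type) [CommRing A]

/-- multiplication by `n`. -/
def mulN (n : ℕ) : A →+ A := AddMonoidHom.mulLeft (n : A)

/-- the subgroup `n A`. -/
def Hn (n : ℕ) : AddSubgroup A := (mulN A n).range

theorem mem_Hn (n : ℕ) (x : A) : x ∈ Hn A n ↔ ∃ y, (n : A) * y = x := by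
  unfold Hn mulN
  rw [AddMonoidHom.mem_range]
  rfl

theorem Hn_mul_le (n m : ℕ) : Hn A (n * m) ≤ Hn A n := by
  intro x hx
  rw [mem_Hn] at hx ⊢
  obtain ⟨y, rfl⟩ := hx
  exact ⟨m * y, by push_cast; ring⟩

theorem Hn_le_comap (n m : ℕ) : Hn A m ≤ (Hn A (n * m)).comap (mulN A n) := by
  intro x hx
  rw [mem_Hn] at hx
  obtain ⟨y, rfl⟩ := hx
  rw [AddSubgroup.mem_comap, mem_Hn]
  exact ⟨y, by unfold mulN; simp [mul_assoc]⟩

theorem map_Hn (n m : ℕ) : (Hn A m).map (mulN A n) = Hn A (n * m) := by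
  ext x
  rw [AddSubgroup.mem_map, mem_Hn]
  constructor
  · rintro ⟨y, hy, rfl⟩
    rw [mem_Hn] at hy
    obtain ⟨z, rfl⟩ := hy
    exact ⟨z, by unfold mulN; simp [mul_assoc]⟩
  · rintro ⟨y, rfl⟩
    refine ⟨m * y, (mem_Hn A m _).mpr ⟨y, rfl⟩, by unfold mulN; simp [mul_assoc]⟩

theorem relIndex_dvd (n m : ℕ) : (Hn A (n * m)).relIndex (Hn A n) ∣ (Hn A m).index := by
  have h := AddSubgroup.index_comap (Hn A (n * m)) (mulN A n)
  have h2 : (Hn A (n * m)).relIndex (Hn A n) = (Hn A (n * m)).relIndex (mulN A n).range := rfl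
  rw [h2, ← h]
  exact AddSubgroup.index_dvd_of_le (Hn_le_comap A n m)

theorem index_mul_dvd (n m : ℕ) : (Hn A (n * m)).index ∣ (Hn A n).index * (Hn A m).index := by
  rw [← AddSubgroup.relIndex_mul_index (Hn_mul_le A n m), mul_comm (Hn A n).index]
  exact Nat.mul_dvd_mul (relIndex_dvd A n m) dvd_rfl

theorem relIndex_pow_dvd (p e : ℕ) :
    (Hn A (p ^ e * (p * p))).relIndex (Hn A (p ^ e * p)) ∣ (Hn A (p * p)).relIndex (Hn A p) := by
  have h := AddSubgroup.relIndex_comap (Hn A (p ^ e * (p * p))) (mulN A (p ^ e)) (Hn A p)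
  rw [map_Hn] at h
  rw [← h]
  exact AddSubgroup.relIndex_dvd_of_le_left _ (Hn_le_comap A (p ^ e) (p * p))

theorem index_pow_dvd (p e : ℕ) :
    (Hn A (p ^ (e + 1))).index ∣ (Hn A p).index * ((Hn A (p * p)).relIndex (Hn A p)) ^ e := by
  induction e with
  | zero => simp
  | succ e ih =>
    have h1 : Hn A (p ^ (e + 1 + 1)) ≤ Hn A (p ^ (e + 1)) := by
      rw [pow_succ p (e + 1)]; exact Hn_mul_le A _ _
    rw [← AddSubgroup.relIndex_mul_index h1]
    have h2 := relIndex_pow_dvd A p e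
    have h3 : p ^ e * (p * p) = p ^ (e + 1 + 1) := by ring
    have h4 : p ^ e * p = p ^ (e + 1) := by ring
    rw [h3, h4] at h2
    calc _ ∣ ((Hn A (p * p)).relIndex (Hn A p)) *
          ((Hn A p).index * ((Hn A (p * p)).relIndex (Hn A p)) ^ e) := Nat.mul_dvd_mul h2 ih
      _ = _ := by ring

theorem index_prod_dvd {ι : Type} [DecidableEq ι] (s : Finset ι) (f : ι → ℕ) :
    (Hn A (∏ i ∈ s, f i)).index ∣ ∏ i ∈ s, (Hn A (f i)).index := by
  induction s using Finset.induction_on with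
  | empty =>
    simp only [Finset.prod_empty]
    have : Hn A 1 = ⊤ := by
      rw [eq_top_iff]
      intro x _
      rw [mem_Hn]
      exact ⟨x, by simp⟩
    rw [this, AddSubgroup.index_top]
  | insert a s ha ih =>
    rw [Finset.prod_insert ha, Finset.prod_insert ha]
    exact (index_mul_dvd A _ _).trans (Nat.mul_dvd_mul dvd_rfl ih)

theorem index_dvd_prod (n : ℕ) (hn : n ≠ 0) :
    (Hn A n).index ∣ ∏ p ∈ n.primeFactors, ((Hn A p).index *
      ((Hn A (p * p)).relIndex (Hn A p)) ^ (n.factorization p - 1)) := by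
  have h1 : ∏ p ∈ n.primeFactors, p ^ n.factorization p = n :=
    Nat.prod_factorization_pow_eq_self hn
  have h2 := index_prod_dvd A n.primeFactors (fun p => p ^ n.factorization p)
  rw [h1] at h2
  refine h2.trans (Finset.prod_dvd_prod_of_dvd _ _ ?_)
  intro p hp
  have h3 : 1 ≤ n.factorization p :=
    (Nat.prime_of_mem_primeFactors hp).factorization_pos_of_dvd hn (Nat.dvd_of_mem_primeFactors hp)
  have h4 := index_pow_dvd A p (n.factorization p - 1)
  rwa [Nat.sub_add_cancel h3] at h4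

/-- the ideal `{x | p x ∈ p² A}`. -/
def Jp (p : ℕ) : Ideal A :=
  Submodule.comap (LinearMap.mulLeft A (p : A)) (Ideal.span {((p * p : ℕ) : A)})

theorem mem_Jp (p : ℕ) (x : A) : x ∈ Jp A p ↔ ∃ y, (p : A) * x = (p * p : A) * y := by
  unfold Jp
  rw [Submodule.mem_comap, Ideal.mem_span_singleton, LinearMap.mulLeft_apply]
  push_cast
  rfl

theorem p_mem_Jp (p : ℕ) : (p : A) ∈ Jp A p := by
  rw [mem_Jp]
  exact ⟨1, by ring⟩

theorem relIndex_eq_card (p : ℕ) : (Hn A (p * p)).relIndex (Hn A p) = Nat.card (A ⧸ Jp A p) := by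
  have h := AddSubgroup.index_comap (Hn A (p * p)) (mulN A p)
  have h2 : (Hn A (p * p)).relIndex (Hn A p) = (Hn A (p * p)).relIndex (mulN A p).range := rfl
  rw [h2, ← h]
  have h3 : (Hn A (p * p)).comap (mulN A p) = (Jp A p).toAddSubgroup := by
    ext x
    rw [AddSubgroup.mem_comap, mem_Hn, Submodule.mem_toAddSubgroup, mem_Jp]
    unfold mulN
    constructor
    · rintro ⟨y, hy⟩
      refine ⟨y, ?_⟩
      have hy' : ((p * p : ℕ) : A) * y = (p : A) * x := hy
      rw [← hy']; push_cast; ring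
    · rintro ⟨y, hy⟩
      refine ⟨y, ?_⟩
      change ((p * p : ℕ) : A) * y = (p : A) * x
      rw [hy]; push_cast; ring
  rw [h3]
  rfl

theorem index_eq_card (n : ℕ) : (Hn A n).index = Nat.card (A ⧸ Ideal.span {(n : A)}) := by
  have h3 : Hn A n = (Ideal.span {(n : A)}).toAddSubgroup := by
    ext x
    rw [mem_Hn, Submodule.mem_toAddSubgroup, Ideal.mem_span_singleton]
    constructor
    · rintro ⟨y, hy⟩; exact ⟨y, hy.symm⟩
    · rintro ⟨y, hy⟩; exact ⟨y, hy.symm⟩
  rw [h3]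
  rfl

theorem index_zero : (Hn A 0).index = Nat.card A := by
  have : Hn A 0 = ⊥ := by
    rw [eq_bot_iff]
    intro x hx
    rw [mem_Hn] at hx
    obtain ⟨y, rfl⟩ := hx
    simp
  rw [this, AddSubgroup.index_bot]

end Layers

end Pool.Agent.Helper381.QC
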