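import Pool.Agent.Helper381.QC.NonVan

set_option autoImplicit false

/-! The general form of Stepanov's argument. -/

open Polynomial

namespace Pool.Agent.Helper381.QC

variable (p : ℕ) [hp : Fact p.Prime]

/-- the derivation `X (X+1) d/dX`. -/
noncomputable def del : (ZMod p)[X] →ₗ[ZMod p] (ZMod p)[X] :=
  (LinearMap.mulLeft (ZMod p) (X * (X + 1) : (ZMod p)[X])).comp derivative

theorem del_apply (f : (ZMod p)[X]) : del p f = X * (X + 1) * derivative f := rfl

theorem del_mul (f g : (ZMod p)[X]) : del p (f * g) = del p f * g + f * del p g := by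
  simp only [del_apply, derivative_mul]; ring

theorem del_pow_succ (g : (ZMod p)[X]) (n : ℕ) :
    del p (g ^ (n + 1)) = ((n : (ZMod p)[X]) + 1) * g ^ n * del p g := by
  simp only [del_apply, derivative_pow_succ]
  rw [map_add, map_natCast, map_one]
  ring

theorem pow_dvd_of_del (g : (ZMod p)[X]) (hg : IsCoprime g (del p g)) (D : ℕ) :
    D ≤ p → ∀ Φ : (ZMod p)[X], (∀ j < D, g ∣ (del p ^ j) Φ) → g ^ D ∣ Φ := by
  induction D with
  | zero => intro _ Φ _; simp
  | succ D ih =>
    intro hD Φ h
    have h1 : g ^ D ∣ del p Φ := by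
      apply ih (by omega)
      intro j hj
      have := h (j + 1) (by omega)
      rwa [pow_succ, Module.End.mul_apply] at this
    have h0 : g ∣ Φ := by
      have := h 0 (Nat.succ_pos D)
      simpa using this
    have key : ∀ i ≤ D, g ^ (i + 1) ∣ Φ := by
      intro i
      induction i with
      | zero => intro _; simpa using h0
      | succ i ihi =>
        intro hi
        obtain ⟨Q, hQ⟩ := ihi (by omega)
        have h2 : g ^ (i + 1) ∣ del p Φ := (pow_dvd_pow g hi).trans h1
        rw [hQ, del_mul, del_pow_succ] at h2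
        have h3 : g ^ (i + 1) ∣ ((i : (ZMod p)[X]) + 1) * g ^ i * del p g * Q := by
          have h4 : g ^ (i + 1) ∣ g ^ (i + 1) * del p Q := dvd_mul_right _ _
          exact (dvd_add_left h4).mp h2
        by_cases hg0 : g ^ i = 0
        · have : g = 0 := by
            by_contra hne
            exact pow_ne_zero _ hne hg0
          rw [this, zero_pow (by omega), zero_mul] at hQ
          rw [hQ]; exact dvd_zero _
        · have h5 : g ∣ ((i : (ZMod p)[X]) + 1) * del p g * Q := by
            have h6 : g ^ i * g ∣ g ^ i * (((i : (ZMod p)[X]) + 1) * del p g * Q) := by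
              rw [← pow_succ]
              convert h3 using 1
              ring
            exact (mul_dvd_mul_iff_left hg0).mp h6
          have h7 : IsUnit ((i : (ZMod p)[X]) + 1) := by
            have h8 : ((i + 1 : ℕ) : ZMod p) ≠ 0 := by
              intro h9
              rw [ZMod.natCast_eq_zero_iff] at h9
              have := Nat.le_of_dvd (Nat.succ_pos i) h9
              omega
            have h10 : ((i : (ZMod p)[X]) + 1) = C ((i + 1 : ℕ) : ZMod p) := by
              simp
            rw [h10]
            exact Polynomial.isUnit_C.mpr (isUnit_iff_ne_zero.mpr h8)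
          have h11 : g ∣ del p g * Q := by
            rw [mul_assoc] at h5
            exact (h7.dvd_mul_left).mp h5
          have h12 : g ∣ Q := hg.dvd_of_dvd_mul_left h11
          obtain ⟨Q', hQ'⟩ := h12
          rw [hQ, hQ', ← mul_assoc, ← pow_succ]
          exact dvd_mul_right _ _
    exact key D le_rfl

/-- general Stepanov argument. -/
theorem stepanov {ι : Type} [Fintype ι] (g : (ZMod p)[X]) (hg : IsCoprime g (del p g)) (D : ℕ)
    (hD : D ≤ p) (f : ι → (ZMod p)[X]) (hf : LinearIndependent (ZMod p) f) (E : ℕ)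
    (hE : ∀ i, (f i).natDegree ≤ E) (T : Finset ((ZMod p)[X] ⧸ Ideal.span {g}))
    (hT : T.card * D < Fintype.card ι)
    (h : ∀ i, ∀ j < D, Ideal.Quotient.mkₐ (ZMod p) (Ideal.span {g}) ((del p ^ j) (f i)) ∈
      Submodule.span (ZMod p) (T : Set ((ZMod p)[X] ⧸ Ideal.span {g}))) :
    D * g.natDegree ≤ E := by
  classical
  set U := Submodule.span (ZMod p) (T : Set ((ZMod p)[X] ⧸ Ideal.span {g})) with hU
  have hUfin : FiniteDimensional (ZMod p) U := FiniteDimensional.span_finset _ T
  have hUdim : Module.finrank (ZMod p) U ≤ T.card := finrank_span_finset_le_card T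
  set Lc : (ι → ZMod p) →ₗ[ZMod p] (ZMod p)[X] := Fintype.linearCombination (ZMod p) f with hLc
  have hmem : ∀ j < D, ∀ c : ι → ZMod p,
      ((Ideal.Quotient.mkₐ (ZMod p) (Ideal.span {g})).toLinearMap.comp
        ((del p ^ j).comp Lc)) c ∈ U := by
    intro j hj c
    simp only [LinearMap.comp_apply, hLc, Fintype.linearCombination_apply, map_sum, map_smul]
    exact Submodule.sum_mem _ fun i _ => Submodule.smul_mem _ _ (h i j hj)
  set L : (ι → ZMod p) →ₗ[ZMod p] (Fin D → U) :=
    LinearMap.pi fun j => LinearMap.codRestrict U _ (hmem j.1 j.2) with hL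
  have hker : LinearMap.ker L ≠ ⊥ := by
    apply LinearMap.ker_ne_bot_of_finrank_lt
    rw [Module.finrank_pi_fintype, Module.finrank_fintype_fun_eq_card]
    simp only [Finset.sum_const, Finset.card_univ, Fintype.card_fin, smul_eq_mul]
    calc D * Module.finrank (ZMod p) U ≤ D * T.card := Nat.mul_le_mul_left _ hUdim
      _ = T.card * D := mul_comm _ _
      _ < _ := hT
  obtain ⟨c, hc, hc0⟩ := (Submodule.ne_bot_iff _).mp hker
  have hΦ0 : Lc c ≠ 0 := by
    intro h0
    apply hc0
    apply hf.fintypeLinearCombination_injective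
    rw [map_zero]
    exact h0
  have hdvd : ∀ j < D, g ∣ (del p ^ j) (Lc c) := by
    intro j hj
    have h1 : L c = 0 := hc
    have h2 := congrFun h1 ⟨j, hj⟩
    have h3 := congrArg Subtype.val h2
    simp only [hL, LinearMap.pi_apply, LinearMap.codRestrict_apply, LinearMap.comp_apply,
      Pi.zero_apply, Submodule.coe_zero, AlgHom.toLinearMap_apply] at h3
    rw [Ideal.Quotient.mkₐ_eq_mk, Ideal.Quotient.eq_zero_iff_mem,
      Ideal.mem_span_singleton] at h3
    exact h3
  have h4 := pow_dvd_of_del p g hg D hD (Lc c) hdvd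
  have h5 := natDegree_le_of_dvd h4 hΦ0
  rw [natDegree_pow] at h5
  refine h5.trans ?_
  rw [hLc, Fintype.linearCombination_apply]
  apply natDegree_sum_le_of_forall_le
  intro i _
  exact (natDegree_smul_le _ _).trans (hE i)

end Pool.Agent.Helper381.QC
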